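import Mathlib
import Pool.Agent.K3h96.OS.Defs

set_option autoImplicit false

/-!
# Statements of the bricks, part A (helper76, MP_27a3bb_gt, splices of two Brieskorn spheres)

The statements `S_X` are to be proved as `theorem t_X : S_X` (or `S_Y → S_X` when the recipe says so).
-/

namespace Pool.Agent.K3h76.SB

open Finset PowerSeries Pool.Agent.K3h96.OS

/-- the moment `E[X^n]` of a centred Gaussian variable `X` of variance `c` -/
def gm1 (c : ℚ) (n : ℕ) : ℚ :=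
  if Even n then (Nat.doubleFactorial (n - 1) : ℚ) * c ^ (n / 2) else 0

/-- The moment `E[X^i Y^j]` of a centred Gaussian vector `(X, Y)` with the covariances
`E[X^2] = c11`, `E[X Y] = c12`, `E[Y^2] = c22` (Isserlis' theorem; `l` is the number of the pairs
which consist of an `X` and a `Y`). -/
def moment (c11 c12 c22 : ℚ) (i j : ℕ) : ℚ :=
  ∑ l ∈ range (min i j + 1), ((i.choose l * j.choose l * l.factorial : ℕ) : ℚ) * c12 ^ l *
    gm1 c11 (i - l) * gm1 c22 (j - l)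

/-- the power series `F` with `sinh (y / a) sinh (y / b) / sinh y = y F(y ^ 2)` -/
noncomputable def kern (a b : ℕ) : PowerSeries ℚ :=
  sinhSeries (1 / (a : ℚ)) * sinhSeries (1 / (b : ℚ)) * (sinhSeries 1)⁻¹

/-- The formal Gaussian integral `⟨y F_a(y ^ 2) z F_b(z ^ 2)⟩`, divided by `h / 2`, for the
covariances `a1 a2 α h / 2`, `a1 a2 b1 b2 h / 2`, `b1 b2 β h / 2`. -/
noncomputable def ser2 (a1 a2 α b1 b2 β : ℕ) : PowerSeries ℚ :=
  PowerSeries.mk fun k => 2 * ∑ x ∈ antidiagonal k, coeff x.1 (kern a1 a2) * coeff x.2 (kern b1 b2) *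
    moment ((a1 * a2 * α : ℕ) / 2) ((a1 * a2 * (b1 * b2) : ℕ) / 2) ((b1 * b2 * β : ℕ) / 2)
      (2 * x.1 + 1) (2 * x.2 + 1)

/-- normalised coefficients of the kernel -/
noncomputable def Gam (a b q : ℕ) : ℝ :=
  (-1) ^ q * Real.pi ^ (2 * q + 1) * ((coeff q (kern a b) : ℚ) : ℝ)

/-- `sin (π / a) sin (π / b)` -/
noncomputable def sn (a b : ℕ) : ℝ := Real.sin (Real.pi / a) * Real.sin (Real.pi / b)

/-- the Taylor coefficients at `ρ` (even part) of `∑ Γ q x ^ (2 q + 1)` -/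
noncomputable def Et (Γ : ℕ → ℝ) (ρ : ℝ) (t : ℕ) : ℝ :=
  ∑' q, Γ q * ((2 * q + 1).choose (2 * t) : ℝ) * ρ ^ (2 * q + 1 - 2 * t)

/-- the function `sin (π z / a) sin (π z / b) / sin (π z)` -/
noncomputable def eta (a b : ℕ) (z : ℂ) : ℂ :=
  Complex.sin (Real.pi * z / a) * Complex.sin (Real.pi * z / b) / Complex.sin (Real.pi * z)

/-- its real part on the line `Re z = ρ` -/
noncomputable def Ph (a b : ℕ) (ρ v s : ℝ) : ℝ :=
  (eta a b ((ρ : ℂ) + ((√v * s : ℝ) : ℂ) * Complex.I)).re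

/-- the two leading terms of `Ph a b ρ v s` for `s → ∞` (for `a < b`) -/
noncomputable def lead2 (a b : ℕ) (ρ v s : ℝ) : ℝ :=
  -(1 / 2) * (Real.sin (Real.pi * ρ * (1 - 1 / a - 1 / b)) *
      Real.exp (-(Real.pi * √v * (1 - 1 / a - 1 / b) * s)) -
    Real.sin (Real.pi * ρ * (1 - (1 / a - 1 / b))) *
      Real.exp (-(Real.pi * √v * (1 - (1 / a - 1 / b)) * s)))

/-- conditional form of the moments -/
def S_MOM : Prop := ∀ (c11 c12 c22 : ℚ) (i j : ℕ), c11 ≠ 0 →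
  moment c11 c12 c22 i j = ∑ s ∈ range (j + 1), (j.choose s : ℚ) * (c12 / c11) ^ (j - s) *
    gm1 (c22 - c12 ^ 2 / c11) s * gm1 c11 (i + j - s)

/-- the coefficients of the kernel, up to exponentially small errors -/
def S_KER : Prop := ∀ a b : ℕ, 1 ≤ a → 1 ≤ b → ∃ C θ : ℝ, 0 < θ ∧ θ < 1 ∧
  ∀ q, |Gam a b q - 2 / Real.pi * sn a b| ≤ C * θ ^ q

/-- the power series of `eta` -/
def S_ETA : Prop := ∀ a b : ℕ, 1 ≤ a → 1 ≤ b → ∀ z : ℂ, ‖z‖ < 1 →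
  HasSum (fun q => (Gam a b q : ℂ) * z ^ (2 * q + 1)) (eta a b z)

/-- `Ph` is real analytic, and its Taylor series at `0` -/
def S_FUN : Prop := ∀ (a b : ℕ) (ρ v : ℝ), 1 ≤ a → 1 ≤ b → 0 < ρ → ρ < 1 → 0 < v →
  AnalyticOnNhd ℝ (Ph a b ρ v) Set.univ ∧
  ∀ᶠ s in nhds (0 : ℝ), HasSum (fun t => (-v) ^ t * Et (Gam a b) ρ t * s ^ (2 * t)) (Ph a b ρ v s)

/-- the asymptotic behaviour of `Ph` -/
def S_EXP : Prop := ∀ (a b : ℕ) (ρ v : ℝ), 2 ≤ a → a < b → 0 < ρ → ρ < 1 → 0 < v →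
  ∃ C : ℝ, ∀ s : ℝ, 0 ≤ s → |Ph a b ρ v s - lead2 a b ρ v s| ≤ C * Real.exp (-(Real.pi * √v * s))

/-- uniqueness of the leading exponential term -/
def S_LEAD : Prop :=
  (∀ (c c' l l' L L' C : ℝ) (f f' : ℝ → ℝ), c ≠ 0 → c' ≠ 0 → l < L → l' < L' →
    (∀ s, 0 ≤ s → |f s| ≤ C * Real.exp (-(L * s))) → (∀ s, 0 ≤ s → |f' s| ≤ C * Real.exp (-(L' * s))) →
    (∀ s, 0 ≤ s → c * Real.exp (-(l * s)) + f s = c' * Real.exp (-(l' * s)) + f' s) →
    l = l' ∧ c = c') ∧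
  (∀ (c l L L' C : ℝ) (f f' : ℝ → ℝ), c ≠ 0 → l < L →
    (∀ s, 0 ≤ s → |f s| ≤ C * Real.exp (-(L * s))) → (∀ s, 0 ≤ s → |f' s| ≤ C * Real.exp (-(L' * s))) →
    (∀ s, 0 ≤ s → c * Real.exp (-(l * s)) + f s = f' s) → L' ≤ l)

/-- a ratio of sines determines the argument -/
def S_RATIO : Prop := ∀ k1 k2 r r' : ℝ, 0 < k1 → k1 < k2 → k2 ≤ 1 → 0 < r → r < 1 → 0 < r' → r' < 1 →
  Real.sin (Real.pi * r * k1) * Real.sin (Real.pi * r' * k2) =
    Real.sin (Real.pi * r' * k1) * Real.sin (Real.pi * r * k2) → r = r'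

/-- for a given product `sn` is decreasing in the sum -/
def S_SINM : Prop := ∀ a b c d : ℕ, 2 ≤ a → 2 ≤ b → 2 ≤ c → 2 ≤ d → a * b = c * d → a + b < c + d →
  sn c d < sn a b

/-- identification, single term against single term -/
def S_IDSS : Prop := ∀ (a b a' b' : ℕ) (ρ v W ρ' v' W' C : ℝ), 2 ≤ a → a < b → a.Coprime b →
  2 ≤ a' → a' < b' → a'.Coprime b' → 0 < ρ → ρ < 1 → 0 < ρ' → ρ' < 1 → 0 < v → 0 < v' → 0 < W → 0 < W' →
  (∀ s : ℝ, 0 ≤ s → |W * lead2 a b ρ v s - W' * lead2 a' b' ρ' v' s| ≤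
    C * (Real.exp (-(Real.pi * √v * s)) + Real.exp (-(Real.pi * √v' * s)))) →
  a = a' ∧ b = b' ∧ v = v' ∧ ρ = ρ' ∧ W = W'

/-- identification, two terms against a single term (corrected version: the products `a b`, `c d`
may be different) -/
def S_IDES' : Prop := ∀ (a b c d a' b' : ℕ) (ρ v W W₁ ρ' v' W' C : ℝ), 2 ≤ a → a < b → a.Coprime b →
  2 ≤ c → c < d → c.Coprime d → (1 : ℝ) / c + 1 / d < 1 / a + 1 / b →
  2 ≤ a' → a' < b' → a'.Coprime b' → 0 < ρ → ρ < 1 → 0 < ρ' → ρ' < 1 → 0 < v → 0 < v' →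
  0 < W → 0 < W₁ → (a * b = c * d → W₁ < W) → 0 < W' →
  (∀ s : ℝ, 0 ≤ s → |W * lead2 a b ρ v s + W₁ * lead2 c d ρ v s - W' * lead2 a' b' ρ' v' s| ≤
    C * (Real.exp (-(Real.pi * √v * s)) + Real.exp (-(Real.pi * √v' * s)))) → False

/-- identification, two terms against two terms (corrected version: `v` and `ρ` are the same on both
sides, the products may be different) -/
def S_IDEE' : Prop := ∀ (a b c d a' b' c' d' : ℕ) (ρ v W W₁ W' W₁' C : ℝ),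
  2 ≤ a → a < b → a.Coprime b → 2 ≤ c → c < d → c.Coprime d → (1 : ℝ) / c + 1 / d < 1 / a + 1 / b →
  2 ≤ a' → a' < b' → a'.Coprime b' → 2 ≤ c' → c' < d' → c'.Coprime d' →
  (1 : ℝ) / c' + 1 / d' < 1 / a' + 1 / b' → 0 < ρ → ρ < 1 → 0 < v →
  0 < W → 0 < W₁ → 0 < W' → 0 < W₁' →
  (∀ s : ℝ, 0 ≤ s → |W * lead2 a b ρ v s + W₁ * lead2 c d ρ v s -
      (W' * lead2 a' b' ρ v s + W₁' * lead2 c' d' ρ v s)| ≤
    C * Real.exp (-(Real.pi * √v * s))) →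
  a = a' ∧ b = b' ∧ c = c' ∧ d = d'

end Pool.Agent.K3h76.SB
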