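import Pool.Agent.K3h76.SB.StmA
import Pool.Agent.K3h96.OS.Gauge2

set_option autoImplicit false

/-!
# Statements of the bricks, part B (asymptotic expansions)

`odf`, `gau`, `Gauge`, `Asy`, `mainPart` are in `Pool.Agent.K3h96.OS.Bender` and `...Gauge2`.
-/

namespace Pool.Agent.K3h76.SB

open Finset PowerSeries Pool.Agent.K3h96.OS

/-- half of the double sum -/
noncomputable def halfSeries (B v ρ : ℝ) (Γ Δ : ℕ → ℝ) (c : ℕ → ℕ) : PowerSeries ℂ :=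
  PowerSeries.mk fun k => (((-1) ^ k * ∑ q ∈ range (c k + 1), Γ q * Δ (k - q) *
    ∑ t ∈ range (q + 1), ((2 * q + 1).choose (2 * t) : ℝ) * ρ ^ (2 * q + 1 - 2 * t) *
      (Nat.doubleFactorial (2 * t - 1) : ℝ) * v ^ t * (odf (k - t) : ℝ) * B ^ (k - t) : ℝ) : ℂ)

/-- its expansion -/
noncomputable def expSeries (R v ρ : ℝ) (Γ : ℕ → ℝ) : PowerSeries ℂ :=
  PowerSeries.mk fun t => ((R * (Nat.doubleFactorial (2 * t - 1) : ℝ) * (-v) ^ t * Et Γ ρ t : ℝ) : ℂ)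

/-- the combinatorial inequality -/
def S_BIN : Prop := ∀ k q t : ℕ, t ≤ q → q ≤ k →
  (2 * q + 1).choose (2 * t) * Nat.doubleFactorial (2 * t - 1) * odf (k - t) * (2 * k + 1) ^ t ≤
    (q + 1).choose t * (2 * q) ^ t * odf k

/-- the first expansion -/
def S_HALF : Prop := ∀ (B v ρ R C θ η : ℝ) (Γ Δ : ℕ → ℝ) (c : ℕ → ℕ), 0 < B → 0 ≤ v → 0 < ρ → ρ < 1 →
  0 < η → η ≤ 1 → ρ ^ 2 + η * v / B < 1 → 0 < θ → θ < 1 → (∀ q, |Γ q| ≤ C) →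
  (∀ p, |Δ p - R| ≤ C * θ ^ p) → (∀ k, c k ≤ k) → (∀ k, (2 * c k : ℝ) ≤ η * (2 * k + 1)) →
  (∀ k, k ≤ 2 * c k + 2) →
  Asy (gau 0 B) (halfSeries B v ρ Γ Δ c) 0 (expSeries R v ρ Γ)

/-- the second expansion -/
def S_SECOND : Prop := ∀ (K v ρ r C θ : ℝ) (Γ : ℕ → ℝ), 0 < v → 0 < ρ → ρ < 1 → 0 < θ → θ < 1 →
  (∀ q, |Γ q - r| ≤ C * θ ^ q) →
  Asy (gau 0 (v / (1 - ρ) ^ 2)) (expSeries K v ρ Γ) 0
    (PowerSeries.C ((-(K * (r / 2) * (v / (1 - ρ) ^ 2) / (1 - ρ)) : ℝ) : ℂ) * PowerSeries.X)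

/-- the double sum in terms of `halfSeries` -/
def S_SPLIT : Prop := ∀ a1 a2 α b1 b2 β : ℕ, 1 ≤ a1 → 1 ≤ a2 → 1 ≤ α → 1 ≤ b1 → 1 ≤ b2 → 1 ≤ β →
  (∀ k : ℕ, ((coeff k (ser2 a1 a2 α b1 b2 β) : ℚ) : ℂ) =
    2 * (((a1 * a2 * α : ℕ) / (2 * Real.pi ^ 2) : ℝ) : ℂ) * coeff k (halfSeries
      ((a1 * a2 * α : ℕ) / (2 * Real.pi ^ 2))
      ((b1 * b2 : ℕ) * ((α * β : ℕ) - (a1 * a2 * (b1 * b2) : ℕ)) / α / (2 * Real.pi ^ 2))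
      ((b1 * b2 : ℕ) / α) (Gam b1 b2) (Gam a1 a2) (fun k => k))) ∧
  (∀ k : ℕ, 1 ≤ k → ((coeff k (ser2 a1 a2 α b1 b2 β) : ℚ) : ℂ) =
    2 * (((a1 * a2 * α : ℕ) / (2 * Real.pi ^ 2) : ℝ) : ℂ) * coeff k (halfSeries
      ((a1 * a2 * α : ℕ) / (2 * Real.pi ^ 2))
      ((b1 * b2 : ℕ) * ((α * β : ℕ) - (a1 * a2 * (b1 * b2) : ℕ)) / α / (2 * Real.pi ^ 2))
      ((b1 * b2 : ℕ) / α) (Gam b1 b2) (Gam a1 a2) (fun k => k / 2)) +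
    2 * (((b1 * b2 * β : ℕ) / (2 * Real.pi ^ 2) : ℝ) : ℂ) * coeff k (halfSeries
      ((b1 * b2 * β : ℕ) / (2 * Real.pi ^ 2))
      ((a1 * a2 : ℕ) * ((α * β : ℕ) - (a1 * a2 * (b1 * b2) : ℕ)) / β / (2 * Real.pi ^ 2))
      ((a1 * a2 : ℕ) / β) (Gam a1 a2) (Gam b1 b2) (fun k => (k - 1) / 2)))

/-- auxiliary facts about expansions -/
def S_AUX : Prop :=
  (∀ (B B' : ℝ) (D D' : ℕ) (f φ ψ : PowerSeries ℂ), 0 < B → B < B' → Asy (gau D B) f φ ψ →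
    Asy (gau D' B') f 0 0) ∧
  (∀ (f : PowerSeries ℂ) (K R : ℝ), 0 ≤ K → 0 < R → (∀ k, ‖coeff k f‖ ≤ K * R ^ k) →
    ∀ (B : ℝ) (D : ℕ), 0 < B → Asy (gau D B) f 0 0) ∧
  (∀ (w : ℕ → ℝ) (f g φ ψ : PowerSeries ℂ) (k₀ : ℕ), (∀ k, k₀ ≤ k → coeff k f = coeff k g) →
    Asy w f φ ψ → Asy w g φ ψ) ∧
  (∀ (w : ℕ → ℝ) (f φ ψ : PowerSeries ℂ), Asy w f φ ψ →
    Asy w (rescale (-1 : ℂ) f) (rescale (-1 : ℂ) ψ) (rescale (-1 : ℂ) φ)) ∧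
  (∀ (B : ℝ) (D : ℕ) (f φ ψ : PowerSeries ℂ), 0 < B → Asy (gau 0 B) f φ ψ →
    Asy (gau D B) f (X ^ D * φ) (PowerSeries.C ((-1 : ℂ) ^ D) * X ^ D * ψ))

end Pool.Agent.K3h76.SB
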