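import Pool.Agent.K3h76.SB.StmB
import Pool.Agent.K3h96.OS.Conv

set_option autoImplicit false

/-! # Comparison of two series with two-level expansions -/

namespace Pool.Agent.K3h76.SB

open Finset PowerSeries Pool.Agent.K3h96.OS

theorem uniq2 {w : ℕ → ℝ} (hw : Gauge w) {f φ ψ φ' ψ' : PowerSeries ℂ} (h : Asy w f φ ψ)
    (h' : Asy w f φ' ψ') : φ = φ' ∧ ψ = ψ' := by
  have h2 : Asy w (f + -f) (φ + -φ') (ψ + -ψ') := by
    refine h.add ?_
    intro L
    have := (h' L).neg_left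
    refine this.congr_left fun k => ?_
    simp only [map_neg, mainPart]
    rw [neg_sub', sub_right_inj]
    rw [neg_eq_iff_add_eq_zero, ← sum_add_distrib]
    refine sum_eq_zero fun l _ => ?_
    ring
  rw [add_neg_cancel] at h2
  obtain ⟨a, b⟩ := h2.unique hw
  exact ⟨by rwa [← sub_eq_add_neg, sub_eq_zero] at a, by rwa [← sub_eq_add_neg, sub_eq_zero] at b⟩

theorem mulc {w : ℕ → ℝ} (hw : Gauge w) {c f φ ψ : PowerSeries ℂ} (hc : Asy w c 0 0)
    (h : Asy w f φ ψ) : Asy w (c * f) (c * φ) (c * ψ) := by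
  have := Asy.mul hw hc h
  simpa using this

/-- a two-level expansion -/
structure Two (f : PowerSeries ℂ) (B B2 κ : ℝ) (A : PowerSeries ℂ) : Prop where
  B_pos : 0 < B
  B2_pos : 0 < B2
  κ_ne : κ ≠ 0
  A_ne : A ≠ 0
  one : coeff 0 f = 1
  first : Asy (gau 0 B) f 0 A
  second : Asy (gau 0 B2) A 0 (PowerSeries.C (κ : ℂ) * PowerSeries.X)

variable (aux : S_AUX)
include aux

theorem conv_asy {c : PowerSeries ℂ} (hc : Conv c) {B : ℝ} (hB : 0 < B) (D : ℕ) :
    Asy (gau D B) c 0 0 := by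
  obtain ⟨K, R, hK, hR, h⟩ := hc
  exact aux.2.1 c K R hK hR h B D hB

/-- both channels of `rescale ε f` -/
theorem Two.resc {f : PowerSeries ℂ} {B B2 κ : ℝ} {A : PowerSeries ℂ} (h : Two f B B2 κ A)
    (ε : ℤˣ) : (ε = 1 ∧ Asy (gau 0 B) (rescale ((ε : ℤ) : ℂ) f) 0 A) ∨
      (ε = -1 ∧ Asy (gau 0 B) (rescale ((ε : ℤ) : ℂ) f) (rescale (-1 : ℂ) A) 0) := by
  rcases Int.units_eq_one_or ε with rfl | rfl
  · left
    refine ⟨rfl, ?_⟩
    have : rescale (((1 : ℤˣ) : ℤ) : ℂ) f = f := by simp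
    rw [this]
    exact h.first
  · right
    refine ⟨rfl, ?_⟩
    have e : (((-1 : ℤˣ) : ℤ) : ℂ) = -1 := by simp
    rw [e]
    have := aux.2.2.2.1 _ _ _ _ h.first
    simpa using this

theorem resc_ne {A : PowerSeries ℂ} (h : A ≠ 0) : rescale (-1 : ℂ) A ≠ 0 := by
  intro h0
  apply h
  ext k
  have := congrArg (coeff k) h0
  rw [coeff_rescale, map_zero, mul_eq_zero] at this
  rcases this with h1 | h1
  · exact absurd h1 (pow_ne_zero _ (by norm_num))
  · rw [h1, map_zero]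

theorem not_lt {f f' A A' c c' : PowerSeries ℂ} {B B2 κ B' B2' κ' : ℝ} (h : Two f B B2 κ A)
    (h' : Two f' B' B2' κ' A') (hc : Conv c) (hc' : Conv c') (hc0' : c' ≠ 0)
    (ε ε' : ℤˣ) (e : c * rescale ((ε : ℤ) : ℂ) f = c' * rescale ((ε' : ℤ) : ℂ) f') : ¬ B < B' := by
  intro hlt
  have hw := gauge_gau 0 h'.B_pos
  have h1 : Asy (gau 0 B') (rescale ((ε : ℤ) : ℂ) f) 0 0 := by
    rcases h.resc aux ε with ⟨-, h2⟩ | ⟨-, h2⟩
    · exact aux.1 _ _ _ _ _ _ _ h.B_pos hlt h2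
    · exact aux.1 _ _ _ _ _ _ _ h.B_pos hlt h2
  have h2 := mulc hw (conv_asy aux hc h'.B_pos 0) h1
  rw [e, mul_zero] at h2
  rcases h'.resc aux ε' with ⟨-, h3⟩ | ⟨-, h3⟩
  · have h4 := mulc hw (conv_asy aux hc' h'.B_pos 0) h3
    have h5 := (uniq2 hw h2 h4).2
    rcases mul_eq_zero.1 h5.symm with h6 | h6
    · exact hc0' h6
    · exact h'.A_ne h6
  · have h4 := mulc hw (conv_asy aux hc' h'.B_pos 0) h3
    have h5 := (uniq2 hw h2 h4).1
    rcases mul_eq_zero.1 h5.symm with h6 | h6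
    · exact hc0' h6
    · exact resc_ne aux h'.A_ne h6

/-- the second level, without signs -/
theorem not_lt2 {f f' A A' c c' : PowerSeries ℂ} {B B2 κ B' B2' κ' : ℝ} (h : Two f B B2 κ A)
    (h' : Two f' B' B2' κ' A') (hc : Conv c) (hc' : Conv c') (hc0' : c' ≠ 0)
    (e : c * A = c' * A') : ¬ B2 < B2' := by
  intro hlt
  have hw := gauge_gau 0 h'.B2_pos
  have h1 : Asy (gau 0 B2') A 0 0 := aux.1 _ _ _ _ _ _ _ h.B2_pos hlt h.second
  have h2 := mulc hw (conv_asy aux hc h'.B2_pos 0) h1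
  have h3 := mulc hw (conv_asy aux hc' h'.B2_pos 0) h'.second
  rw [e, mul_zero] at h2
  have h4 := (uniq2 hw h2 h3).2
  rcases mul_eq_zero.1 h4.symm with h6 | h6
  · exact hc0' h6
  · rcases mul_eq_zero.1 h6 with h7 | h7
    · apply h'.κ_ne
      have := congrArg constantCoeff h7
      simpa using this
    · exact X_ne_zero h7

theorem cmp {f f' A A' c c' : PowerSeries ℂ} {B B2 κ B' B2' κ' : ℝ} (h : Two f B B2 κ A)
    (h' : Two f' B' B2' κ' A') (hc : Conv c) (hc' : Conv c') (hc0 : c ≠ 0) (hc0' : c' ≠ 0)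
    (ε ε' : ℤˣ) (e : c * rescale ((ε : ℤ) : ℂ) f = c' * rescale ((ε' : ℤ) : ℂ) f') :
    ε = ε' ∧ B = B' ∧ B2 = B2' ∧ f = f' ∧ A = A' := by
  have hB : B = B' := le_antisymm (_root_.not_lt.1 (not_lt aux h' h hc' hc hc0 ε' ε e.symm))
    (_root_.not_lt.1 (not_lt aux h h' hc hc' hc0' ε ε' e))
  subst hB
  have hw := gauge_gau 0 h.B_pos
  -- the signs and the first level
  have key : ε = ε' ∧ ∃ d d' : PowerSeries ℂ, Conv d ∧ Conv d' ∧ d ≠ 0 ∧ d' ≠ 0 ∧
      d * A = d' * A' ∧ d * f = d' * f' := by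
    rcases h.resc aux ε with ⟨h1, h2⟩ | ⟨h1, h2⟩ <;> rcases h'.resc aux ε' with ⟨h3, h4⟩ | ⟨h3, h4⟩
    · refine ⟨h1.trans h3.symm, c, c', hc, hc', hc0, hc0', ?_, ?_⟩
      · have h5 := mulc hw (conv_asy aux hc h.B_pos 0) h2
        have h6 := mulc hw (conv_asy aux hc' h.B_pos 0) h4
        rw [e] at h5
        exact (uniq2 hw h5 h6).2
      · rw [h1, h3] at e
        simpa using e
    · exfalso
      have h5 := mulc hw (conv_asy aux hc h.B_pos 0) h2
      have h6 := mulc hw (conv_asy aux hc' h.B_pos 0) h4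
      rw [e] at h5
      have h7 := (uniq2 hw h5 h6).2
      rw [mul_zero] at h7
      rcases mul_eq_zero.1 h7 with h8 | h8
      · exact hc0 h8
      · exact h.A_ne h8
    · exfalso
      have h5 := mulc hw (conv_asy aux hc h.B_pos 0) h2
      have h6 := mulc hw (conv_asy aux hc' h.B_pos 0) h4
      rw [e] at h5
      have h7 := (uniq2 hw h5 h6).2
      rw [mul_zero] at h7
      rcases mul_eq_zero.1 h7.symm with h8 | h8
      · exact hc0' h8
      · exact h'.A_ne h8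
    · have hr : ∀ g : PowerSeries ℂ, rescale (-1 : ℂ) (rescale (-1 : ℂ) g) = g := by
        intro g
        rw [rescale_rescale]
        norm_num
      have hne : ∀ g : PowerSeries ℂ, g ≠ 0 → rescale (-1 : ℂ) g ≠ 0 := fun g hg => resc_ne aux hg
      have hcv : ∀ g : PowerSeries ℂ, Conv g → Conv (rescale (-1 : ℂ) g) := by
        intro g hg
        have := hg.rescale_unit (-1)
        simpa using this
      refine ⟨h1.trans h3.symm, rescale (-1 : ℂ) c, rescale (-1 : ℂ) c', hcv _ hc, hcv _ hc',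
        hne _ hc0, hne _ hc0', ?_, ?_⟩
      · have h5 := mulc hw (conv_asy aux hc h.B_pos 0) h2
        have h6 := mulc hw (conv_asy aux hc' h.B_pos 0) h4
        rw [e] at h5
        have h7 := congrArg (rescale (-1 : ℂ)) (uniq2 hw h5 h6).1
        rw [map_mul, map_mul, hr, hr] at h7
        exact h7
      · have h7 := congrArg (rescale (-1 : ℂ)) e
        rw [h1, h3, map_mul, map_mul] at h7
        have e1 : (((-1 : ℤˣ) : ℤ) : ℂ) = -1 := by simp
        rw [e1, hr, hr] at h7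
        exact h7
  obtain ⟨hε, d, d', hd, hd', hd0, hd0', e1, e2⟩ := key
  have hB2 : B2 = B2' := le_antisymm (_root_.not_lt.1 (not_lt2 aux h' h hd' hd hd0 e1.symm))
    (_root_.not_lt.1 (not_lt2 aux h h' hd hd' hd0' e1))
  subst hB2
  have hw2 := gauge_gau 0 h.B2_pos
  have h5 := mulc hw2 (conv_asy aux hd h.B2_pos 0) h.second
  have h6 := mulc hw2 (conv_asy aux hd' h.B2_pos 0) h'.second
  rw [e1] at h5
  have h7 := (uniq2 hw2 h5 h6).2
  rw [← mul_assoc, ← mul_assoc] at h7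
  have h8 := mul_right_cancel₀ X_ne_zero h7
  -- `d κ = d' κ'`
  have h9 : d * (PowerSeries.C (κ : ℂ) * f') = d * (PowerSeries.C (κ' : ℂ) * f) := by
    have : d' * (PowerSeries.C (κ' : ℂ)) * f' = d' * f' * PowerSeries.C (κ' : ℂ) := by ring
    calc d * (PowerSeries.C (κ : ℂ) * f') = (d * PowerSeries.C (κ : ℂ)) * f' := by ring
      _ = d' * PowerSeries.C (κ' : ℂ) * f' := by rw [h8]
      _ = (d * f) * PowerSeries.C (κ' : ℂ) := by rw [this, e2]
      _ = _ := by ring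
  have h10 := mul_left_cancel₀ hd0 h9
  have h11 : (κ : ℂ) = κ' := by
    have := congrArg (coeff 0) h10
    rw [coeff_C_mul, coeff_C_mul, h.one, h'.one] at this
    simpa using this
  have hκ : (κ : ℂ) ≠ 0 := by exact_mod_cast h.κ_ne
  have hC : PowerSeries.C (κ : ℂ) ≠ 0 := by
    intro h0
    apply hκ
    have := congrArg constantCoeff h0
    simpa using this
  have hff : f = f' := by
    rw [← h11] at h10
    exact (mul_left_cancel₀ hC h10).symm
  have hdd : d = d' := by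
    rw [← h11] at h8
    exact mul_right_cancel₀ hC h8
  refine ⟨hε, rfl, rfl, hff, ?_⟩
  rw [hdd] at e1
  exact mul_left_cancel₀ hd0' e1

end Pool.Agent.K3h76.SB
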