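import Pool.Agent.K3h76.SB.Cmp

set_option autoImplicit false

/-! # The two-level expansion of the series of a splice -/

namespace Pool.Agent.K3h76.SB

open Finset PowerSeries Pool.Agent.K3h96.OS

/-- numerical data, the node with the larger product of weights first -/
@[ext] structure Dat where
  a1 : ℕ
  a2 : ℕ
  al : ℕ
  b1 : ℕ
  b2 : ℕ
  be : ℕ
  ha : 2 ≤ a1
  ha' : a1 < a2
  hac : a1.Coprime a2
  hb : 2 ≤ b1
  hb' : b1 < b2
  hbc : b1.Coprime b2
  hal : 1 ≤ al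
  hbe : 1 ≤ be
  pos : a1 * a2 * (b1 * b2) < al * be
  ord : b1 * b2 * be ≤ a1 * a2 * al

namespace Dat

variable (D : Dat)

noncomputable def B : ℝ := ((D.a1 * D.a2 * D.al : ℕ) : ℝ) / (2 * Real.pi ^ 2)
noncomputable def v : ℝ := ((D.b1 * D.b2 : ℕ) : ℝ) * (((D.al * D.be : ℕ) : ℝ) -
  ((D.a1 * D.a2 * (D.b1 * D.b2) : ℕ) : ℝ)) / D.al / (2 * Real.pi ^ 2)
noncomputable def ρ : ℝ := ((D.b1 * D.b2 : ℕ) : ℝ) / D.al
noncomputable def B2 : ℝ := D.v / (1 - D.ρ) ^ 2
noncomputable def U : PowerSeries ℂ :=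
  (ser2 D.a1 D.a2 D.al D.b1 D.b2 D.be).map (algebraMap ℚ ℂ)

theorem lt_al : D.b1 * D.b2 < D.al := by
  by_contra h
  push Not at h
  have h1 := D.pos
  have h2 := D.ord
  have h3 : D.al * D.be ≤ D.b1 * D.b2 * D.be := Nat.mul_le_mul_right _ h
  have h4 : D.a1 * D.a2 * D.al ≤ D.a1 * D.a2 * (D.b1 * D.b2) := Nat.mul_le_mul_left _ h
  omega

theorem al_pos : (0 : ℝ) < D.al := by
  have := D.hal
  exact_mod_cast (by omega : 0 < D.al)

theorem be_pos : (0 : ℝ) < D.be := by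
  have := D.hbe
  exact_mod_cast (by omega : 0 < D.be)

theorem pa_pos : (0 : ℝ) < ((D.a1 * D.a2 : ℕ) : ℝ) := by
  have h1 := D.ha
  have h2 := D.ha'
  exact_mod_cast Nat.mul_pos (by omega) (by omega)

theorem pb_pos : (0 : ℝ) < ((D.b1 * D.b2 : ℕ) : ℝ) := by
  have h1 := D.hb
  have h2 := D.hb'
  exact_mod_cast Nat.mul_pos (by omega) (by omega)

theorem ρ_pos : 0 < D.ρ := div_pos D.pb_pos D.al_pos

theorem ρ_lt : D.ρ < 1 := by
  rw [ρ, div_lt_one D.al_pos]
  exact_mod_cast D.lt_al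

theorem B_pos : 0 < D.B := by
  have h1 := D.pa_pos
  have h2 := D.al_pos
  have h3 : (0 : ℝ) < ((D.a1 * D.a2 * D.al : ℕ) : ℝ) := by
    rw [Nat.cast_mul]
    exact mul_pos h1 h2
  exact div_pos h3 (by positivity)

theorem v_pos : 0 < D.v := by
  have h1 : (0 : ℝ) < ((D.al * D.be : ℕ) : ℝ) - ((D.a1 * D.a2 * (D.b1 * D.b2) : ℕ) : ℝ) := by
    have := D.pos
    have h : ((D.a1 * D.a2 * (D.b1 * D.b2) : ℕ) : ℝ) < ((D.al * D.be : ℕ) : ℝ) := by
      exact_mod_cast this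
    linarith
  have h2 := D.pb_pos
  have h3 := D.al_pos
  unfold v
  positivity

theorem B2_pos : 0 < D.B2 := by
  have h1 := D.v_pos
  have h2 : 0 < 1 - D.ρ := by linarith [D.ρ_lt]
  unfold B2
  positivity

theorem v_div_B : D.ρ ^ 2 + D.v / D.B =
    ((D.b1 * D.b2 * D.be : ℕ) : ℝ) / ((D.a1 * D.a2 * D.al : ℕ) : ℝ) := by
  have h1 := D.pa_pos.ne'
  have h2 := D.al_pos.ne'
  have h3 := Real.pi_pos.ne'
  unfold ρ v B
  push_cast at h1 ⊢
  have h4 : (D.a1 : ℝ) ≠ 0 := fun h => h1 (by rw [h, zero_mul])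
  have h5 : (D.a2 : ℝ) ≠ 0 := fun h => h1 (by rw [h, mul_zero])
  field_simp
  ring

theorem le_one : D.ρ ^ 2 + D.v / D.B ≤ 1 := by
  rw [D.v_div_B, div_le_one]
  · exact_mod_cast D.ord
  · have h1 := D.pa_pos
    have h2 := D.al_pos
    rw [Nat.cast_mul]
    exact mul_pos h1 h2

theorem lt_one (h : D.b1 * D.b2 * D.be ≠ D.a1 * D.a2 * D.al) : D.ρ ^ 2 + D.v / D.B < 1 := by
  rw [D.v_div_B, div_lt_one]
  · exact_mod_cast lt_of_le_of_ne D.ord h
  · have h1 := D.pa_pos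
    have h2 := D.al_pos
    rw [Nat.cast_mul]
    exact mul_pos h1 h2

/-- in the case of equality -/
theorem eq_ρ (h : D.b1 * D.b2 * D.be = D.a1 * D.a2 * D.al) :
    ((D.a1 * D.a2 : ℕ) : ℝ) / D.be = D.ρ := by
  have h1 : ((D.b1 * D.b2 * D.be : ℕ) : ℝ) = ((D.a1 * D.a2 * D.al : ℕ) : ℝ) := by rw [h]
  rw [ρ, div_eq_div_iff D.be_pos.ne' D.al_pos.ne']
  push_cast at h1 ⊢
  linarith

theorem eq_v (h : D.b1 * D.b2 * D.be = D.a1 * D.a2 * D.al) :
    ((D.a1 * D.a2 : ℕ) : ℝ) * (((D.al * D.be : ℕ) : ℝ) -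
      ((D.a1 * D.a2 * (D.b1 * D.b2) : ℕ) : ℝ)) / D.be / (2 * Real.pi ^ 2) = D.v := by
  have h1 := D.eq_ρ h
  unfold v
  unfold ρ at h1
  congr 1
  rw [mul_div_right_comm, h1, mul_div_right_comm]

theorem eq_B (h : D.b1 * D.b2 * D.be = D.a1 * D.a2 * D.al) :
    ((D.b1 * D.b2 * D.be : ℕ) : ℝ) / (2 * Real.pi ^ 2) = D.B := by
  rw [h, B]

/-- the series of the first level -/
noncomputable def Aser : PowerSeries ℂ :=
  PowerSeries.C ((2 * D.B : ℝ) : ℂ) * expSeries (2 / Real.pi * sn D.a1 D.a2) D.v D.ρ (Gam D.b1 D.b2) +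
  if D.b1 * D.b2 * D.be = D.a1 * D.a2 * D.al then
    PowerSeries.C ((2 * D.B : ℝ) : ℂ) * expSeries (2 / Real.pi * sn D.b1 D.b2) D.v D.ρ (Gam D.a1 D.a2)
  else 0

/-- the constant of the second level -/
noncomputable def kap : ℝ :=
  (2 * D.B * (-(2 / Real.pi * sn D.a1 D.a2 * (2 / Real.pi * sn D.b1 D.b2 / 2) *
    (D.v / (1 - D.ρ) ^ 2) / (1 - D.ρ)))) *
  if D.b1 * D.b2 * D.be = D.a1 * D.a2 * D.al then 2 else 1

theorem sn_pos {a b : ℕ} (ha : 2 ≤ a) (hb : 2 ≤ b) : 0 < sn a b := by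
  have h : ∀ n : ℕ, 2 ≤ n → 0 < Real.sin (Real.pi / n) := by
    intro n hn
    have h2 : (2 : ℝ) ≤ n := by exact_mod_cast hn
    refine Real.sin_pos_of_pos_of_lt_pi (by positivity) ?_
    rw [div_lt_iff₀ (by linarith)]
    nlinarith [Real.pi_pos]
  exact mul_pos (h a ha) (h b hb)

theorem kap_ne : D.kap ≠ 0 := by
  have h1 := sn_pos D.ha (D.ha.trans D.ha'.le)
  have h2 := sn_pos D.hb (D.hb.trans D.hb'.le)
  have h3 := D.B_pos
  have h4 := D.v_pos
  have h5 : 0 < 1 - D.ρ := by linarith [D.ρ_lt]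
  have h6 := Real.pi_pos
  unfold kap
  refine mul_ne_zero ?_ ?_
  · have : 0 < 2 * D.B * ((2 / Real.pi * sn D.a1 D.a2 * (2 / Real.pi * sn D.b1 D.b2 / 2) *
      (D.v / (1 - D.ρ) ^ 2) / (1 - D.ρ))) := by positivity
    rw [mul_neg]
    exact (neg_lt_zero.2 this).ne
  · split_ifs <;> norm_num

end Dat

theorem asy_C_mul {w : ℕ → ℝ} (hw : Gauge w) (aux : S_AUX) (x : ℂ) {f φ ψ : PowerSeries ℂ}
    (hc : Asy w (PowerSeries.C x) 0 0) (h : Asy w f φ ψ) :
    Asy w (PowerSeries.C x * f) (PowerSeries.C x * φ) (PowerSeries.C x * ψ) :=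
  mulc hw hc h

theorem conv_C (x : ℂ) : Conv (PowerSeries.C x) := by
  refine ⟨‖x‖, 1, norm_nonneg _, one_pos, fun k => ?_⟩
  rw [one_pow, mul_one, coeff_C]
  split_ifs
  · exact le_rfl
  · rw [norm_zero]
    exact norm_nonneg _

variable (aux : S_AUX) (half : S_HALF) (second : S_SECOND) (ker : S_KER) (split : S_SPLIT)
include aux half second ker split

theorem gam_bound {a b : ℕ} (ha : 1 ≤ a) (hb : 1 ≤ b) : ∃ C : ℝ, ∀ q, |Gam a b q| ≤ C := by
  obtain ⟨C, θ, h0, h1, h⟩ := ker a b ha hb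
  refine ⟨|C| + |2 / Real.pi * sn a b|, fun q => ?_⟩
  have h2 := h q
  have h3 : C * θ ^ q ≤ |C| := by
    calc C * θ ^ q ≤ |C| * θ ^ q := mul_le_mul_of_nonneg_right (le_abs_self _) (by positivity)
      _ ≤ |C| * 1 := mul_le_mul_of_nonneg_left (pow_le_one₀ h0.le h1.le) (abs_nonneg _)
      _ = |C| := mul_one _
  have h4 := abs_sub_abs_le_abs_sub (Gam a b q) (2 / Real.pi * sn a b)
  linarith

theorem first_aux (B v ρ η : ℝ) (a b a' b' : ℕ) (c : ℕ → ℕ) (ha : 1 ≤ a) (hb : 1 ≤ b) (ha' : 1 ≤ a')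
    (hb' : 1 ≤ b') (hB : 0 < B) (hv : 0 < v) (hρ : 0 < ρ) (hρ' : ρ < 1) (hη : 0 < η) (hη' : η ≤ 1)
    (h : ρ ^ 2 + η * v / B < 1) (hc : ∀ k, c k ≤ k) (hc' : ∀ k, (2 * c k : ℝ) ≤ η * (2 * k + 1))
    (hc'' : ∀ k, k ≤ 2 * c k + 2) :
    Asy (gau 0 B) (halfSeries B v ρ (Gam a b) (Gam a' b') c) 0
      (expSeries (2 / Real.pi * sn a' b') v ρ (Gam a b)) := by
  obtain ⟨C, θ, h0, h1, h2⟩ := ker a' b' ha' hb'
  obtain ⟨C', h3⟩ := gam_bound aux half second ker split ha hb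
  refine half B v ρ _ (max C C') θ η _ _ c hB hv.le hρ hρ' hη hη' h h0 h1
    (fun q => (h3 q).trans (le_max_right _ _)) (fun p => (h2 p).trans ?_) hc hc' hc''
  exact mul_le_mul_of_nonneg_right (le_max_left _ _) (by positivity)

theorem two (D : Dat) : Two D.U D.B D.B2 D.kap D.Aser := by
  have hB := D.B_pos
  have hB2 := D.B2_pos
  have hw := gauge_gau 0 hB
  have hw2 := gauge_gau 0 hB2
  have ha := D.ha
  have ha' := D.ha'
  have hb := D.hb
  have hb' := D.hb'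
  have hcB : Asy (gau 0 D.B) (PowerSeries.C ((2 * D.B : ℝ) : ℂ)) 0 0 := conv_asy aux (conv_C _) hB 0
  have hcB2 : Asy (gau 0 D.B2) (PowerSeries.C ((2 * D.B : ℝ) : ℂ)) 0 0 :=
    conv_asy aux (conv_C _) hB2 0
  obtain ⟨sp1, sp2⟩ := split D.a1 D.a2 D.al D.b1 D.b2 D.be (by omega) (by omega) D.hal (by omega)
    (by omega) D.hbe
  -- the second level
  have sec : ∀ (a b a' b' : ℕ), 1 ≤ a → 1 ≤ b → Asy (gau 0 D.B2)
      (expSeries (2 / Real.pi * sn a' b') D.v D.ρ (Gam a b)) 0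
      (PowerSeries.C ((-(2 / Real.pi * sn a' b' * (2 / Real.pi * sn a b / 2) *
        (D.v / (1 - D.ρ) ^ 2) / (1 - D.ρ)) : ℝ) : ℂ) * PowerSeries.X) := by
    intro a b a' b' h1 h2
    obtain ⟨C, θ, h0, h1, h2⟩ := ker a b h1 h2
    exact second _ D.v D.ρ _ C θ _ D.v_pos D.ρ_pos D.ρ_lt h0 h1 h2
  have hsecond : Asy (gau 0 D.B2) D.Aser 0 (PowerSeries.C (D.kap : ℂ) * PowerSeries.X) := by
    have s1 := mulc hw2 hcB2 (sec D.b1 D.b2 D.a1 D.a2 (by omega) (by omega))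
    rw [mul_zero] at s1
    unfold Dat.Aser Dat.kap
    split_ifs with h
    · have s2 := mulc hw2 hcB2 (sec D.a1 D.a2 D.b1 D.b2 (by omega) (by omega))
      rw [mul_zero] at s2
      have s3 := s1.add s2
      rw [add_zero] at s3
      convert s3 using 1
      rw [← mul_assoc, ← mul_assoc, ← map_mul, ← map_mul, ← add_mul, ← map_add]
      congr 2
      push_cast
      ring
    · rw [add_zero]
      convert s1 using 1
      rw [← mul_assoc, ← map_mul]
      congr 2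
      push_cast
      ring
  refine ⟨hB, hB2, D.kap_ne, ?_, ?_, ?_, hsecond⟩
  · intro h0
    rw [h0] at hsecond
    have h1 := (hsecond.unique hw2).2
    rcases mul_eq_zero.1 h1 with h2 | h2
    · apply D.kap_ne
      have := congrArg constantCoeff h2
      simpa using this
    · exact X_ne_zero h2
  · -- the constant coefficient
    unfold Dat.U
    rw [coeff_map, ser2, coeff_mk]
    have k0 : ∀ a b : ℕ, coeff 0 (kern a b) = 1 / (a : ℚ) * (1 / (b : ℚ)) := by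
      intro a b
      have s0 : ∀ x : ℚ, constantCoeff (sinhSeries x) = x := by
        intro x
        rw [← coeff_zero_eq_constantCoeff_apply, sinhSeries, coeff_mk]
        simp
      rw [coeff_zero_eq_constantCoeff_apply, kern, map_mul, map_mul, PowerSeries.constantCoeff_inv,
        s0, s0, s0]
      norm_num
    have m0 : ∀ c11 c12 c22 : ℚ, moment c11 c12 c22 (2 * 0 + 1) (2 * 0 + 1) = c12 := by
      intro c11 c12 c22
      simp [moment, gm1, sum_range_succ]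
    rw [Finset.Nat.antidiagonal_zero, sum_singleton]
    simp only [k0, m0]
    have h1 : (D.a1 : ℚ) ≠ 0 := by exact_mod_cast (by omega : D.a1 ≠ 0)
    have h2 : (D.a2 : ℚ) ≠ 0 := by exact_mod_cast (by omega : D.a2 ≠ 0)
    have h3 : (D.b1 : ℚ) ≠ 0 := by exact_mod_cast (by omega : D.b1 ≠ 0)
    have h4 : (D.b2 : ℚ) ≠ 0 := by exact_mod_cast (by omega : D.b2 ≠ 0)
    have : (2 : ℚ) * (1 / (D.a1 : ℚ) * (1 / (D.a2 : ℚ)) * (1 / (D.b1 : ℚ) * (1 / (D.b2 : ℚ))) *
        (((D.a1 * D.a2 * (D.b1 * D.b2) : ℕ) : ℚ) / 2)) = 1 := by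
      push_cast
      field_simp
    rw [this, map_one]
  · -- the first level
    unfold Dat.Aser
    split_ifs with h
    · have hη : D.ρ ^ 2 + (1 / 2) * D.v / D.B < 1 := by
        have h1 := D.le_one
        have h2 : 0 < D.v / D.B := div_pos D.v_pos hB
        have h3 : (1 / 2) * D.v / D.B = (1 / 2) * (D.v / D.B) := by ring
        rw [h3]
        linarith
      have f1 := first_aux aux half second ker split D.B D.v D.ρ (1 / 2) D.b1 D.b2 D.a1 D.a2
        (fun k => k / 2) (by omega) (by omega) (by omega) (by omega) hB D.v_pos D.ρ_pos D.ρ_lt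
        (by norm_num) (by norm_num) hη (fun k => Nat.div_le_self _ _) (fun k => by
          have : 2 * (k / 2) ≤ k := Nat.mul_div_le _ _
          have : (2 * ((k / 2 : ℕ) : ℝ)) ≤ k := by exact_mod_cast this
          linarith) (fun k => by omega)
      have f2 := first_aux aux half second ker split D.B D.v D.ρ (1 / 2) D.a1 D.a2 D.b1 D.b2
        (fun k => (k - 1) / 2) (by omega) (by omega) (by omega) (by omega) hB D.v_pos D.ρ_pos D.ρ_lt
        (by norm_num) (by norm_num) hη (fun k => by show (k - 1) / 2 ≤ k; omega) (fun k => by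
          have : 2 * ((k - 1) / 2) ≤ k := by omega
          have : (2 * (((k - 1) / 2 : ℕ) : ℝ)) ≤ k := by exact_mod_cast this
          linarith) (fun k => by show k ≤ 2 * ((k - 1) / 2) + 2; omega)
      have g1 := mulc hw hcB f1
      have g2 := mulc hw hcB f2
      have g3 := g1.add g2
      rw [mul_zero, add_zero] at g3
      refine aux.2.2.1 _ _ _ _ _ 1 (fun k hk => ?_) g3
      unfold Dat.U
      rw [coeff_map, map_add, coeff_C_mul, coeff_C_mul]
      have e := sp2 k hk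
      rw [D.eq_ρ h, D.eq_v h, D.eq_B h] at e
      rw [eq_ratCast, e, Complex.ofReal_mul, Complex.ofReal_ofNat]
      rfl
    · have hη : D.ρ ^ 2 + 1 * D.v / D.B < 1 := by
        rw [one_mul]
        exact D.lt_one h
      have f1 := first_aux aux half second ker split D.B D.v D.ρ 1 D.b1 D.b2 D.a1 D.a2
        (fun k => k) (by omega) (by omega) (by omega) (by omega) hB D.v_pos D.ρ_pos D.ρ_lt
        (by norm_num) (by norm_num) hη (fun k => le_rfl) (fun k => by linarith) (fun k => by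
          show k ≤ 2 * k + 2; omega)
      have g1 := mulc hw hcB f1
      rw [mul_zero] at g1
      rw [add_zero]
      refine aux.2.2.1 _ _ _ _ _ 0 (fun k _ => ?_) g1
      unfold Dat.U
      rw [coeff_map, coeff_C_mul]
      have e := sp1 k
      rw [eq_ratCast, e, Complex.ofReal_mul, Complex.ofReal_ofNat]
      rfl

end Pool.Agent.K3h76.SB
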