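import Pool.Agent.K3h76.SB.Sphere
import Pool.Agent.K3h62.SB.Mom
import Pool.Agent.K3h43.SB.Split
import Pool.Agent.K3h51.SB.Bin
import Pool.Agent.K3h51.SB.Sines
import Pool.Agent.K3h51.SB.Lead
import Pool.Agent.K3h51.SB.AuxFacts
import Pool.Agent.K3h70.SB.Half
import Pool.Agent.K3h72.SB.Second
import Pool.Agent.K3h72.SB.Exp
import Pool.Agent.K3h23.SB.Ker
import Pool.Agent.K3h87.SB.Eta
import Pool.Agent.K3h33.SB.Fun
import Pool.Agent.K3h96.SB.IDSS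
import Pool.Agent.K3h41.SB.Ide

set_option autoImplicit false

/-! # The bricks together -/

namespace Pool.Agent.K3h76.SB

theorem bricks : Bricks where
  aux := Pool.Agent.K3h51.SB.t_AUX
  half := Pool.Agent.K3h70.SB.t_HALF Pool.Agent.K3h51.SB.t_BIN
  second := Pool.Agent.K3h72.SB.Second.t_SECOND
  ker := Pool.Agent.K3h23.SB.t_KER
  split := Pool.Agent.K3h43.SB.t_SPLIT Pool.Agent.K3h62.SB.t_MOM
  funn := Pool.Agent.K3h33.SB.t_FUN Pool.Agent.K3h23.SB.t_KER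
    (Pool.Agent.K3h87.SB.Eta.t_ETA Pool.Agent.K3h23.SB.t_KER)
  ex := Pool.Agent.K3h72.SB.Exp.t_EXP
  sinm := Pool.Agent.K3h51.SB.t_SINM
  ss := Pool.Agent.K3h96.SB.t_IDSS Pool.Agent.K3h51.SB.t_LEAD Pool.Agent.K3h51.SB.t_RATIO
  es := Pool.Agent.K3h41.SB.t_IDES Pool.Agent.K3h51.SB.t_LEAD Pool.Agent.K3h51.SB.t_RATIO
  ee := Pool.Agent.K3h41.SB.t_IDEE Pool.Agent.K3h51.SB.t_LEAD

end Pool.Agent.K3h76.SB
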