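import Pool.Agent.K3h76.SB.Dat

set_option autoImplicit false

/-! # Identification of the data -/

namespace Pool.Agent.K3h76.SB

open Finset PowerSeries Pool.Agent.K3h96.OS

theorem pair_eq {a b c d : ℕ} (h1 : a * b = c * d) (h2 : a + b = c + d) (hab : a < b) (hcd : c < d) :
    a = c ∧ b = d := by
  have h3 : (a : ℤ) * b = c * d := by exact_mod_cast h1
  have h4 : (a : ℤ) + b = c + d := by exact_mod_cast h2
  have h5 : ((a : ℤ) - c) * (a - d) = 0 := by
    have : (b : ℤ) = c + d - a := by linarith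
    rw [this] at h3
    linear_combination -h3
  rcases mul_eq_zero.1 h5 with h | h
  · have : a = c := by omega
    omega
  · have : a = d := by omega
    omega

theorem pair_of_u {a b c d : ℕ} (ha : 2 ≤ a) (hab : a < b) (hc : a.Coprime b) (hc2 : 2 ≤ c)
    (hcd : c < d) (hcd' : c.Coprime d) (h : (1 : ℝ) / a + 1 / b = 1 / c + 1 / d) : a = c ∧ b = d := by
  have h1 : (0 : ℝ) < a := by exact_mod_cast (by omega : 0 < a)
  have h2 : (0 : ℝ) < b := by exact_mod_cast (by omega : 0 < b)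
  have h3 : (0 : ℝ) < c := by exact_mod_cast (by omega : 0 < c)
  have h4 : (0 : ℝ) < d := by exact_mod_cast (by omega : 0 < d)
  have h5 : (a + b) * (c * d) = (c + d) * (a * b) := by
    have : ((a : ℝ) + b) * (c * d) = (c + d) * (a * b) := by
      field_simp at h
      linarith
    exact_mod_cast this
  have g : ∀ x y : ℕ, x.Coprime y → (x + y).Coprime (x * y) := by
    intro x y hxy
    refine Nat.Coprime.mul_right ?_ ?_
    · rw [Nat.coprime_self_add_left]
      exact hxy.symm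
    · rw [Nat.coprime_add_self_left]
      exact hxy
  have h6 : a * b ∣ c * d := (g a b hc).symm.dvd_of_dvd_mul_left ⟨c + d, by rw [h5]; ring⟩
  have h7 : c * d ∣ a * b := (g c d hcd').symm.dvd_of_dvd_mul_left ⟨a + b, by rw [← h5]; ring⟩
  have h8 : a * b = c * d := Nat.dvd_antisymm h6 h7
  rw [h8] at h5
  have h9 : a + b = c + d := Nat.eq_of_mul_eq_mul_right (Nat.mul_pos (by omega) (by omega)) h5
  exact pair_eq h8 h9 hab hcd

namespace Dat

variable (D : Dat)

/-- the case of equality -/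
def Eqc : Prop := D.b1 * D.b2 * D.be = D.a1 * D.a2 * D.al

instance : Decidable D.Eqc := by unfold Eqc; infer_instance

noncomputable def fn (s : ℝ) : ℝ := sn D.a1 D.a2 * Ph D.b1 D.b2 D.ρ D.v s +
  if D.Eqc then sn D.b1 D.b2 * Ph D.a1 D.a2 D.ρ D.v s else 0

noncomputable def ld (s : ℝ) : ℝ := sn D.a1 D.a2 * lead2 D.b1 D.b2 D.ρ D.v s +
  if D.Eqc then sn D.b1 D.b2 * lead2 D.a1 D.a2 D.ρ D.v s else 0

noncomputable def co (t : ℕ) : ℝ := sn D.a1 D.a2 * ((-D.v) ^ t * Et (Gam D.b1 D.b2) D.ρ t) +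
  if D.Eqc then sn D.b1 D.b2 * ((-D.v) ^ t * Et (Gam D.a1 D.a2) D.ρ t) else 0

theorem coeff_Aser (t : ℕ) : coeff t D.Aser =
    ((2 * D.B * (2 / Real.pi) * (Nat.doubleFactorial (2 * t - 1) : ℝ) * D.co t : ℝ) : ℂ) := by
  unfold Aser co Eqc expSeries
  split_ifs with h
  · rw [map_add, coeff_C_mul, coeff_C_mul, coeff_mk, coeff_mk]
    push_cast
    ring
  · rw [add_zero, coeff_C_mul, coeff_mk]
    push_cast
    ring

end Dat

theorem co_eq {D D' : Dat} (hB : D.B = D'.B) (hA : D.Aser = D'.Aser) (t : ℕ) : D.co t = D'.co t := by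
  have h := congrArg (coeff t) hA
  rw [D.coeff_Aser, D'.coeff_Aser, ← hB] at h
  have h1 : 2 * D.B * (2 / Real.pi) * (Nat.doubleFactorial (2 * t - 1) : ℝ) * D.co t =
      2 * D.B * (2 / Real.pi) * (Nat.doubleFactorial (2 * t - 1) : ℝ) * D'.co t := by
    exact_mod_cast h
  have h2 := D.B_pos
  have h3 := Real.pi_pos
  have h4 : (0 : ℝ) < (Nat.doubleFactorial (2 * t - 1) : ℝ) := by
    exact_mod_cast Nat.doubleFactorial_pos _
  have h5 : 2 * D.B * (2 / Real.pi) * (Nat.doubleFactorial (2 * t - 1) : ℝ) ≠ 0 := by positivity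
  exact mul_left_cancel₀ h5 h1

theorem fn_eq (fun' : S_FUN) {D D' : Dat} (h : ∀ t, D.co t = D'.co t) : D.fn = D'.fn := by
  have an : ∀ D : Dat, AnalyticOnNhd ℝ D.fn Set.univ := by
    intro D
    have ha := D.ha
    have ha' := D.ha'
    have hb := D.hb
    have hb' := D.hb'
    have h1 := (fun' D.b1 D.b2 D.ρ D.v (by omega) (by omega) D.ρ_pos D.ρ_lt D.v_pos).1
    have h2 := (fun' D.a1 D.a2 D.ρ D.v (by omega) (by omega) D.ρ_pos D.ρ_lt D.v_pos).1
    unfold Dat.fn
    by_cases hE : D.Eqc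
    · simp only [hE, if_true]
      exact (analyticOnNhd_const.mul h1).add (analyticOnNhd_const.mul h2)
    · simp only [hE, if_false, add_zero]
      exact analyticOnNhd_const.mul h1
  have hs : ∀ D : Dat, ∀ᶠ s in nhds (0 : ℝ), HasSum (fun t => D.co t * s ^ (2 * t)) (D.fn s) := by
    intro D
    have ha := D.ha
    have ha' := D.ha'
    have hb := D.hb
    have hb' := D.hb'
    have h1 := (fun' D.b1 D.b2 D.ρ D.v (by omega) (by omega) D.ρ_pos D.ρ_lt D.v_pos).2
    have h2 := (fun' D.a1 D.a2 D.ρ D.v (by omega) (by omega) D.ρ_pos D.ρ_lt D.v_pos).2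
    filter_upwards [h1, h2] with s h3 h4
    unfold Dat.fn Dat.co
    by_cases hE : D.Eqc
    · simp only [hE, if_true]
      have e := (h3.mul_left (sn D.a1 D.a2)).add (h4.mul_left (sn D.b1 D.b2))
      have e2 : (fun t => (sn D.a1 D.a2 * ((-D.v) ^ t * Et (Gam D.b1 D.b2) D.ρ t) +
          sn D.b1 D.b2 * ((-D.v) ^ t * Et (Gam D.a1 D.a2) D.ρ t)) * s ^ (2 * t)) =
          fun t => sn D.a1 D.a2 * ((-D.v) ^ t * Et (Gam D.b1 D.b2) D.ρ t * s ^ (2 * t)) +
            sn D.b1 D.b2 * ((-D.v) ^ t * Et (Gam D.a1 D.a2) D.ρ t * s ^ (2 * t)) := by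
        funext t
        ring
      rw [e2]
      exact e
    · simp only [hE, if_false, add_zero]
      have e := h3.mul_left (sn D.a1 D.a2)
      have e2 : (fun t => sn D.a1 D.a2 * ((-D.v) ^ t * Et (Gam D.b1 D.b2) D.ρ t) * s ^ (2 * t)) =
          fun t => sn D.a1 D.a2 * ((-D.v) ^ t * Et (Gam D.b1 D.b2) D.ρ t * s ^ (2 * t)) := by
        funext t
        ring
      rw [e2]
      exact e
  refine AnalyticOnNhd.eq_of_eventuallyEq (an D) (an D') (z₀ := 0) ?_
  filter_upwards [hs D, hs D'] with s h1 h2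
  have h3 : (fun t => D.co t * s ^ (2 * t)) = fun t => D'.co t * s ^ (2 * t) := by
    funext t
    rw [h t]
  rw [h3] at h1
  exact h1.unique h2

theorem ld_close (ex : S_EXP) (D : Dat) : ∃ C : ℝ, ∀ s : ℝ, 0 ≤ s → |D.fn s - D.ld s| ≤
    C * Real.exp (-(Real.pi * √D.v * s)) := by
  obtain ⟨C1, h1⟩ := ex D.b1 D.b2 D.ρ D.v D.hb D.hb' D.ρ_pos D.ρ_lt D.v_pos
  obtain ⟨C2, h2⟩ := ex D.a1 D.a2 D.ρ D.v D.ha D.ha' D.ρ_pos D.ρ_lt D.v_pos
  have s1 := Dat.sn_pos D.ha (D.ha.trans D.ha'.le)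
  have s2 := Dat.sn_pos D.hb (D.hb.trans D.hb'.le)
  refine ⟨sn D.a1 D.a2 * C1 + sn D.b1 D.b2 * |C2|, fun s hs => ?_⟩
  have e1 := h1 s hs
  have e2 := h2 s hs
  have e0 := Real.exp_pos (-(Real.pi * √D.v * s))
  unfold Dat.fn Dat.ld
  by_cases hE : D.Eqc
  · simp only [hE, if_true]
    have : sn D.a1 D.a2 * Ph D.b1 D.b2 D.ρ D.v s + sn D.b1 D.b2 * Ph D.a1 D.a2 D.ρ D.v s -
        (sn D.a1 D.a2 * lead2 D.b1 D.b2 D.ρ D.v s + sn D.b1 D.b2 * lead2 D.a1 D.a2 D.ρ D.v s) =
        sn D.a1 D.a2 * (Ph D.b1 D.b2 D.ρ D.v s - lead2 D.b1 D.b2 D.ρ D.v s) +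
        sn D.b1 D.b2 * (Ph D.a1 D.a2 D.ρ D.v s - lead2 D.a1 D.a2 D.ρ D.v s) := by ring
    rw [this]
    refine (abs_add_le _ _).trans ?_
    rw [abs_mul, abs_mul, abs_of_pos s1, abs_of_pos s2, add_mul]
    refine add_le_add ?_ ?_
    · rw [mul_assoc]
      exact mul_le_mul_of_nonneg_left e1 s1.le
    · rw [mul_assoc]
      refine mul_le_mul_of_nonneg_left (e2.trans ?_) s2.le
      exact mul_le_mul_of_nonneg_right (le_abs_self _) e0.le
  · simp only [hE, if_false, add_zero]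
    rw [← mul_sub, abs_mul, abs_of_pos s1, add_mul]
    have h3 := mul_le_mul_of_nonneg_left e1 s1.le
    have h4 : 0 ≤ sn D.b1 D.b2 * |C2| * Real.exp (-(Real.pi * √D.v * s)) := by positivity
    linarith

theorem ld_eq (fun' : S_FUN) (ex : S_EXP) {D D' : Dat} (hB : D.B = D'.B) (hA : D.Aser = D'.Aser) :
    ∃ C : ℝ, ∀ s : ℝ, 0 ≤ s → |D.ld s - D'.ld s| ≤
      C * (Real.exp (-(Real.pi * √D.v * s)) + Real.exp (-(Real.pi * √D'.v * s))) := by
  obtain ⟨C, h⟩ := ld_close ex D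
  obtain ⟨C', h'⟩ := ld_close ex D'
  have hf := fn_eq fun' (co_eq hB hA)
  refine ⟨|C| + |C'|, fun s hs => ?_⟩
  have h1 := h s hs
  have h2 := h' s hs
  rw [← hf] at h2
  have e1 := Real.exp_pos (-(Real.pi * √D.v * s))
  have e2 := Real.exp_pos (-(Real.pi * √D'.v * s))
  have : D.ld s - D'.ld s = -(D.fn s - D.ld s) + (D.fn s - D'.ld s) := by ring
  rw [this]
  refine (abs_add_le _ _).trans ?_
  rw [abs_neg]
  have h3 : C * Real.exp (-(Real.pi * √D.v * s)) ≤ |C| * Real.exp (-(Real.pi * √D.v * s)) :=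
    mul_le_mul_of_nonneg_right (le_abs_self _) e1.le
  have h4 : C' * Real.exp (-(Real.pi * √D'.v * s)) ≤ |C'| * Real.exp (-(Real.pi * √D'.v * s)) :=
    mul_le_mul_of_nonneg_right (le_abs_self _) e2.le
  have h5 : 0 ≤ |C| * Real.exp (-(Real.pi * √D'.v * s)) := by positivity
  have h6 : 0 ≤ |C'| * Real.exp (-(Real.pi * √D.v * s)) := by positivity
  nlinarith

/-- the single type -/
theorem single_ld (D : Dat) (h : ¬ (D.Eqc ∧ ¬ (D.a1 = D.b1 ∧ D.a2 = D.b2))) :
    ∀ s, D.ld s = ((if D.Eqc then 2 else 1) * sn D.a1 D.a2) * lead2 D.b1 D.b2 D.ρ D.v s := by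
  intro s
  unfold Dat.ld
  by_cases hE : D.Eqc
  · have h1 : D.a1 = D.b1 ∧ D.a2 = D.b2 := by
      by_contra h2
      exact h ⟨hE, h2⟩
    simp only [hE, if_true, h1.1, h1.2]
    ring
  · simp only [hE, if_false]
    ring

/-- the double type: the pairs in the right order -/
theorem double_ld (sinm : S_SINM) (D : Dat) (hE : D.Eqc) (h : ¬ (D.a1 = D.b1 ∧ D.a2 = D.b2)) :
    ∃ a b c d : ℕ, ∃ W W₁ : ℝ, 2 ≤ a ∧ a < b ∧ a.Coprime b ∧ 2 ≤ c ∧ c < d ∧ c.Coprime d ∧
      (1 : ℝ) / c + 1 / d < 1 / a + 1 / b ∧ 0 < W ∧ 0 < W₁ ∧ (a * b = c * d → W₁ < W) ∧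
      (∀ s, D.ld s = W * lead2 a b D.ρ D.v s + W₁ * lead2 c d D.ρ D.v s) ∧
      ((a = D.b1 ∧ b = D.b2 ∧ c = D.a1 ∧ d = D.a2) ∨ (a = D.a1 ∧ b = D.a2 ∧ c = D.b1 ∧ d = D.b2)) := by
  have s1 := Dat.sn_pos D.ha (D.ha.trans D.ha'.le)
  have s2 := Dat.sn_pos D.hb (D.hb.trans D.hb'.le)
  have ha := D.ha
  have ha' := D.ha'
  have hb := D.hb
  have hb' := D.hb'
  have key : ∀ a b c d : ℕ, 2 ≤ a → a < b → 2 ≤ c → c < d → (1 : ℝ) / c + 1 / d < 1 / a + 1 / b →
      a * b = c * d → sn a b < sn c d := by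
    intro a b c d ha hab hc hcd hu hP
    refine sinm c d a b hc (by omega) ha (by omega) hP.symm ?_
    have h1 : (0 : ℝ) < a := by exact_mod_cast (by omega : 0 < a)
    have h2 : (0 : ℝ) < b := by exact_mod_cast (by omega : 0 < b)
    have h3 : (0 : ℝ) < c := by exact_mod_cast (by omega : 0 < c)
    have h4 : (0 : ℝ) < d := by exact_mod_cast (by omega : 0 < d)
    have hP' : (a : ℝ) * b = c * d := by exact_mod_cast hP
    have h5 : (1 : ℝ) / c + 1 / d = (c + d) / (a * b) := by rw [hP']; field_simp; ring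
    have h6 : (1 : ℝ) / a + 1 / b = (a + b) / (a * b) := by field_simp; ring
    rw [h5, h6, div_lt_div_iff_of_pos_right (by positivity)] at hu
    exact_mod_cast hu
  rcases lt_trichotomy ((1 : ℝ) / D.a1 + 1 / D.a2) (1 / D.b1 + 1 / D.b2) with hu | hu | hu
  · refine ⟨D.b1, D.b2, D.a1, D.a2, sn D.a1 D.a2, sn D.b1 D.b2, D.hb, D.hb', D.hbc, D.ha, D.ha',
      D.hac, hu, s1, s2, key _ _ _ _ D.hb D.hb' D.ha D.ha' hu, ?_, Or.inl ⟨rfl, rfl, rfl, rfl⟩⟩
    intro s
    unfold Dat.ld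
    simp only [hE, if_true]
  · exact absurd (pair_of_u D.ha D.ha' D.hac D.hb D.hb' D.hbc hu) h
  · refine ⟨D.a1, D.a2, D.b1, D.b2, sn D.b1 D.b2, sn D.a1 D.a2, D.ha, D.ha', D.hac, D.hb, D.hb',
      D.hbc, hu, s2, s1, key _ _ _ _ D.ha D.ha' D.hb D.hb' hu, ?_, Or.inr ⟨rfl, rfl, rfl, rfl⟩⟩
    intro s
    unfold Dat.ld
    simp only [hE, if_true]
    ring

/-- the numerical conclusions -/
theorem L_eq {D D' : Dat} (hB : D.B = D'.B) : D.a1 * D.a2 * D.al = D'.a1 * D'.a2 * D'.al := by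
  unfold Dat.B at hB
  have h := Real.pi_pos
  rw [div_left_inj' (by positivity)] at hB
  exact_mod_cast hB

theorem ident (fun' : S_FUN) (ex : S_EXP) (sinm : S_SINM) (ss : S_IDSS) (es : S_IDES')
    (ee : S_IDEE') {D D' : Dat} (hB : D.B = D'.B) (hB2 : D.B2 = D'.B2) (hA : D.Aser = D'.Aser) :
    (D'.a1 = D.a1 ∧ D'.a2 = D.a2 ∧ D'.al = D.al ∧ D'.b1 = D.b1 ∧ D'.b2 = D.b2 ∧ D'.be = D.be) ∨
    (D'.a1 = D.b1 ∧ D'.a2 = D.b2 ∧ D'.al = D.be ∧ D'.b1 = D.a1 ∧ D'.b2 = D.a2 ∧ D'.be = D.al) := by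
  obtain ⟨C, hC⟩ := ld_eq fun' ex hB hA
  have hL := L_eq hB
  have ha := D.ha
  have ha' := D.ha'
  have hb := D.hb
  have hb' := D.hb'
  have hpa : 0 < D.a1 * D.a2 := Nat.mul_pos (by omega) (by omega)
  have hpb : 0 < D.b1 * D.b2 := Nat.mul_pos (by omega) (by omega)
  by_cases h1 : D.Eqc ∧ ¬ (D.a1 = D.b1 ∧ D.a2 = D.b2)
  · obtain ⟨a, b, c, d, W, W₁, p1, p2, p3, p4, p5, p6, p7, p8, p9, p10, p11, p12⟩ :=
      double_ld sinm D h1.1 h1.2
    by_cases h2 : D'.Eqc ∧ ¬ (D'.a1 = D'.b1 ∧ D'.a2 = D'.b2)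
    · -- double against double
      obtain ⟨a', b', c', d', W', W₁', q1, q2, q3, q4, q5, q6, q7, q8, q9, q10, q11, q12⟩ :=
        double_ld sinm D' h2.1 h2.2
      have v1 : ∀ D : Dat, D.Eqc → D.v = D.B * (1 - D.ρ ^ 2) := by
        intro D hE
        have h3 := D.v_div_B
        have h4 : ((D.b1 * D.b2 * D.be : ℕ) : ℝ) / ((D.a1 * D.a2 * D.al : ℕ) : ℝ) = 1 := by
          unfold Dat.Eqc at hE
          rw [hE, div_self]
          rw [Nat.cast_mul]
          exact (mul_pos D.pa_pos D.al_pos).ne'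
        rw [h4] at h3
        have h5 := D.B_pos.ne'
        field_simp at h3
        linarith
      have hρ : D.ρ = D'.ρ := by
        have e1 := v1 D h1.1
        have e2 := v1 D' h2.1
        unfold Dat.B2 at hB2
        rw [e1, e2, ← hB] at hB2
        have r1 := D.ρ_lt
        have r2 := D'.ρ_lt
        have r3 := D.ρ_pos
        have r4 := D'.ρ_pos
        have g1 : 1 - D.ρ ≠ 0 := by linarith
        have g2 : 1 - D'.ρ ≠ 0 := by linarith
        have h5 := D.B_pos.ne'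
        rw [div_eq_div_iff (pow_ne_zero 2 g1) (pow_ne_zero 2 g2)] at hB2
        have h6 : (1 - D.ρ) * (1 - D'.ρ) * ((1 + D.ρ) * (1 - D'.ρ)) =
            (1 - D.ρ) * (1 - D'.ρ) * ((1 + D'.ρ) * (1 - D.ρ)) := by
          apply mul_left_cancel₀ h5
          linear_combination hB2
        have h7 := mul_left_cancel₀ (mul_ne_zero g1 g2) h6
        linarith
      have hv : D.v = D'.v := by rw [v1 D h1.1, v1 D' h2.1, hB, hρ]
      have h3 := ee a b c d a' b' c' d' D.ρ D.v W W₁ W' W₁' (2 * C) p1 p2 p3 p4 p5 p6 p7 q1 q2 q3 q4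
        q5 q6 q7 D.ρ_pos D.ρ_lt D.v_pos p8 p9 q8 q9 (fun s hs => by
          have h4 := hC s hs
          rw [p11, q11, ← hρ, ← hv] at h4
          linarith)
      obtain ⟨e1, e2, e3, e4⟩ := h3
      have eb : D.be * D.al = D.be * D.al := rfl
      have hr1 := D.eq_ρ h1.1
      have hr2 := D'.eq_ρ h2.1
      have c1 : ∀ x y z w : ℕ, 0 < x → 0 < y → x = z → ((x : ℕ) : ℝ) / y = (z : ℝ) / w → 0 < w →
          y = w := by
        intro x y z w hx hy hxz h hw
        subst hxz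
        have hx' : (x : ℝ) ≠ 0 := by exact_mod_cast hx.ne'
        have hy' : (y : ℝ) ≠ 0 := by exact_mod_cast hy.ne'
        have hw' : (w : ℝ) ≠ 0 := by exact_mod_cast hw.ne'
        rw [div_eq_div_iff hy' hw'] at h
        have := mul_left_cancel₀ hx' h
        exact_mod_cast this.symm
      have hal := D.hal
      have hbe := D.hbe
      have hal' := D'.hal
      have hbe' := D'.hbe
      rcases p12 with ⟨x1, x2, x3, x4⟩ | ⟨x1, x2, x3, x4⟩ <;>
      rcases q12 with ⟨y1, y2, y3, y4⟩ | ⟨y1, y2, y3, y4⟩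
      · left
        have z1 : D'.b1 = D.b1 := by omega
        have z2 : D'.b2 = D.b2 := by omega
        have z3 : D'.a1 = D.a1 := by omega
        have z4 : D'.a2 = D.a2 := by omega
        refine ⟨z3, z4, ?_, z1, z2, ?_⟩
        · refine c1 (D'.b1 * D'.b2) D'.al (D.b1 * D.b2) D.al (by rw [z1, z2]; exact hpb) (by omega)
            (by rw [z1, z2]) ?_ (by omega)
          exact hρ.symm
        · refine c1 (D'.a1 * D'.a2) D'.be (D.a1 * D.a2) D.be (by rw [z3, z4]; exact hpa) (by omega)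
            (by rw [z3, z4]) ?_ (by omega)
          rw [hr2, hr1, hρ]
      · right
        have z1 : D'.a1 = D.b1 := by omega
        have z2 : D'.a2 = D.b2 := by omega
        have z3 : D'.b1 = D.a1 := by omega
        have z4 : D'.b2 = D.a2 := by omega
        refine ⟨z1, z2, ?_, z3, z4, ?_⟩
        · refine c1 (D'.b1 * D'.b2) D'.al (D.a1 * D.a2) D.be (by rw [z3, z4]; exact hpa) (by omega)
            (by rw [z3, z4]) ?_ (by omega)
          rw [hr1, hρ]
          rfl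
        · refine c1 (D'.a1 * D'.a2) D'.be (D.b1 * D.b2) D.al (by rw [z1, z2]; exact hpb) (by omega)
            (by rw [z1, z2]) ?_ (by omega)
          rw [hr2, ← hρ]
          rfl
      · right
        have z1 : D'.a1 = D.b1 := by omega
        have z2 : D'.a2 = D.b2 := by omega
        have z3 : D'.b1 = D.a1 := by omega
        have z4 : D'.b2 = D.a2 := by omega
        refine ⟨z1, z2, ?_, z3, z4, ?_⟩
        · refine c1 (D'.b1 * D'.b2) D'.al (D.a1 * D.a2) D.be (by rw [z3, z4]; exact hpa) (by omega)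
            (by rw [z3, z4]) ?_ (by omega)
          rw [hr1, hρ]
          rfl
        · refine c1 (D'.a1 * D'.a2) D'.be (D.b1 * D.b2) D.al (by rw [z1, z2]; exact hpb) (by omega)
            (by rw [z1, z2]) ?_ (by omega)
          rw [hr2, ← hρ]
          rfl
      · left
        have z1 : D'.b1 = D.b1 := by omega
        have z2 : D'.b2 = D.b2 := by omega
        have z3 : D'.a1 = D.a1 := by omega
        have z4 : D'.a2 = D.a2 := by omega
        refine ⟨z3, z4, ?_, z1, z2, ?_⟩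
        · refine c1 (D'.b1 * D'.b2) D'.al (D.b1 * D.b2) D.al (by rw [z1, z2]; exact hpb) (by omega)
            (by rw [z1, z2]) ?_ (by omega)
          exact hρ.symm
        · refine c1 (D'.a1 * D'.a2) D'.be (D.a1 * D.a2) D.be (by rw [z3, z4]; exact hpa) (by omega)
            (by rw [z3, z4]) ?_ (by omega)
          rw [hr2, hr1, hρ]
    · -- double against single
      exfalso
      have s1 := Dat.sn_pos D'.ha (D'.ha.trans D'.ha'.le)
      refine es a b c d D'.b1 D'.b2 D.ρ D.v W W₁ D'.ρ D'.v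
        ((if D'.Eqc then 2 else 1) * sn D'.a1 D'.a2) C p1 p2 p3 p4 p5 p6 p7 D'.hb D'.hb' D'.hbc
        D.ρ_pos D.ρ_lt D'.ρ_pos D'.ρ_lt D.v_pos D'.v_pos p8 p9 p10 (by split_ifs <;> linarith)
        (fun s hs => ?_)
      have h4 := hC s hs
      rw [p11, single_ld D' h2] at h4
      exact h4
  · by_cases h2 : D'.Eqc ∧ ¬ (D'.a1 = D'.b1 ∧ D'.a2 = D'.b2)
    · exfalso
      obtain ⟨a, b, c, d, W, W₁, p1, p2, p3, p4, p5, p6, p7, p8, p9, p10, p11, p12⟩ :=
        double_ld sinm D' h2.1 h2.2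
      have s1 := Dat.sn_pos D.ha (D.ha.trans D.ha'.le)
      refine es a b c d D.b1 D.b2 D'.ρ D'.v W W₁ D.ρ D.v
        ((if D.Eqc then 2 else 1) * sn D.a1 D.a2) C p1 p2 p3 p4 p5 p6 p7 D.hb D.hb' D.hbc
        D'.ρ_pos D'.ρ_lt D.ρ_pos D.ρ_lt D'.v_pos D.v_pos p8 p9 p10 (by split_ifs <;> linarith)
        (fun s hs => ?_)
      have h4 := hC s hs
      rw [p11, single_ld D h1, abs_sub_comm, add_comm (Real.exp _)] at h4
      exact h4
    · -- single against single
      left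
      have s1 := Dat.sn_pos D.ha (D.ha.trans D.ha'.le)
      have s2 := Dat.sn_pos D'.ha (D'.ha.trans D'.ha'.le)
      obtain ⟨e1, e2, e3, e4, e5⟩ := ss D.b1 D.b2 D'.b1 D'.b2 D.ρ D.v
        ((if D.Eqc then 2 else 1) * sn D.a1 D.a2) D'.ρ D'.v
        ((if D'.Eqc then 2 else 1) * sn D'.a1 D'.a2) C D.hb D.hb' D.hbc D'.hb D'.hb' D'.hbc
        D.ρ_pos D.ρ_lt D'.ρ_pos D'.ρ_lt D.v_pos D'.v_pos (by split_ifs <;> linarith)
        (by split_ifs <;> linarith) (fun s hs => by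
          have h4 := hC s hs
          rw [single_ld D h1, single_ld D' h2] at h4
          exact h4)
      have hal := D.hal
      have hal' := D'.hal
      -- the weight `al`
      have e6 : D'.al = D.al := by
        have h3 : ((D.b1 * D.b2 : ℕ) : ℝ) / D.al = ((D'.b1 * D'.b2 : ℕ) : ℝ) / D'.al := e4
        rw [← e1, ← e2] at h3
        have h4 := D.pb_pos.ne'
        rw [div_eq_div_iff D.al_pos.ne' D'.al_pos.ne'] at h3
        exact_mod_cast mul_left_cancel₀ h4 h3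
      have e7 : D'.a1 * D'.a2 = D.a1 * D.a2 := by
        rw [e6] at hL
        exact (Nat.eq_of_mul_eq_mul_right (by omega) hL).symm
      have e8 : D'.be = D.be := by
        have h3 : D.v = D'.v := e3
        unfold Dat.v at h3
        rw [← e1, ← e2, e6, e7] at h3
        have h4 := Real.pi_pos
        rw [div_left_inj' (by positivity), div_left_inj' D.al_pos.ne'] at h3
        have h5 := mul_left_cancel₀ D.pb_pos.ne' h3
        have h6 : ((D.al * D.be : ℕ) : ℝ) = ((D.al * D'.be : ℕ) : ℝ) := by linarith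
        have h7 : D.al * D.be = D.al * D'.be := by exact_mod_cast h6
        exact (Nat.eq_of_mul_eq_mul_left (by omega) h7).symm
      have hEE : D.Eqc ↔ D'.Eqc := by
        unfold Dat.Eqc
        rw [← e1, ← e2, e6, e7, e8]
      have e9 : D'.a1 = D.a1 ∧ D'.a2 = D.a2 := by
        by_cases hE : D.Eqc
        · have hE' := hEE.1 hE
          have g1 : D.a1 = D.b1 ∧ D.a2 = D.b2 := by
            by_contra h3
            exact h1 ⟨hE, h3⟩
          have g2 : D'.a1 = D'.b1 ∧ D'.a2 = D'.b2 := by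
            by_contra h3
            exact h2 ⟨hE', h3⟩
          omega
        · have hE' : ¬ D'.Eqc := fun h => hE (hEE.2 h)
          simp only [hE, hE', if_false, one_mul] at e5
          have ha2 := D'.ha
          have ha2' := D'.ha'
          rcases lt_trichotomy (D'.a1 + D'.a2) (D.a1 + D.a2) with h3 | h3 | h3
          · have := sinm D'.a1 D'.a2 D.a1 D.a2 (by omega) (by omega) (by omega) (by omega) e7 h3
            linarith
          · exact pair_eq e7 h3 D'.ha' D.ha'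
          · have := sinm D.a1 D.a2 D'.a1 D'.a2 (by omega) (by omega) (by omega) (by omega) e7.symm h3
            linarith
      exact ⟨e9.1, e9.2, e6, e1.symm, e2.symm, e8⟩

end Pool.Agent.K3h76.SB
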