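import Pool.Agent.K3h76.SB.Cmp

set_option autoImplicit false

/-! # Comparison with the Seifert fibred spheres -/

namespace Pool.Agent.K3h76.SB

open Finset PowerSeries Pool.Agent.K3h96.OS

theorem conv_poly {p : PowerSeries ℂ} {D : ℕ} (hp : ∀ l, D < l → coeff l p = 0) : Conv p := by
  refine ⟨∑ i ∈ range (D + 1), ‖coeff i p‖, 1, sum_nonneg fun _ _ => norm_nonneg _, one_pos,
    fun k => ?_⟩
  rw [one_pow, mul_one]
  rcases Nat.lt_or_ge D k with h | h
  · rw [hp k h, norm_zero]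
    exact sum_nonneg fun _ _ => norm_nonneg _
  · exact single_le_sum (f := fun i => ‖coeff i p‖) (fun _ _ => norm_nonneg _)
      (mem_range.2 (by omega))

theorem pp_ne (ε : ℤˣ) {S : Finset ℕ} (h3 : 3 ≤ S.card) (h2 : ∀ a ∈ S, 2 ≤ a) {D : ℕ}
    (hD : S.card ≤ D + 3) : pp ε S D ≠ 0 := by
  intro h0
  have h := coeff_pp_top ε h3 hD
  rw [h0, map_zero] at h
  rcases mul_eq_zero.1 h.symm with h4 | h4
  · exact alp_ne ε h2 D h4
  · exact zpow_ne_zero _ pi0 h4

theorem gs_asy (ε : ℤˣ) {S : Finset ℕ} (h3 : 3 ≤ S.card) (h2 : ∀ a ∈ S, 2 ≤ a) {D : ℕ}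
    (hD : S.card ≤ D + 3) :
    (ε = 1 ∧ Asy (gau D (Bp S)) (Gs ε S) 0 (pp ε S D)) ∨
    (ε = -1 ∧ Asy (gau D (Bp S)) (Gs ε S) (pp ε S D) 0) := by
  have hw := gauge_gau D (Bp_pos h2)
  rcases Int.units_eq_one_or ε with rfl | rfl
  · left
    refine ⟨rfl, ?_⟩
    obtain ⟨r, hr⟩ := Al_same 1 h3 h2 hD
    rw [if_pos rfl] at hr
    obtain ⟨r', hr'⟩ := Al_opposite (-1) 1 (by decide) h3 h2 hD
    rw [if_neg (by decide)] at hr'
    obtain ⟨e1, e2⟩ := uniq2 hw hr hr'
    rw [e1] at hr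
    exact hr
  · right
    refine ⟨rfl, ?_⟩
    obtain ⟨r, hr⟩ := Al_same (-1) h3 h2 hD
    rw [if_neg (by decide)] at hr
    obtain ⟨r', hr'⟩ := Al_opposite 1 (-1) (by decide) h3 h2 hD
    rw [if_pos rfl] at hr'
    obtain ⟨e1, e2⟩ := uniq2 hw hr hr'
    rw [e2] at hr
    exact hr

variable (aux : S_AUX)
include aux

theorem no_conv {f A g g' : PowerSeries ℂ} {B B2 κ : ℝ} (h : Two f B B2 κ A) (hg : Conv g)
    (hg' : Conv g') (hg0 : g ≠ 0) (e : g * A = g') : False := by
  have hw := gauge_gau 0 h.B2_pos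
  have h1 := mulc hw (conv_asy aux hg h.B2_pos 0) h.second
  rw [e] at h1
  have h2 := conv_asy aux hg' h.B2_pos 0
  have h3 := (uniq2 hw h1 h2).2
  rcases mul_eq_zero.1 h3 with h6 | h6
  · exact hg0 h6
  · rcases mul_eq_zero.1 h6 with h7 | h7
    · apply h.κ_ne
      have := congrArg constantCoeff h7
      simpa using this
    · exact X_ne_zero h7

theorem seif {f A c c' : PowerSeries ℂ} {B B2 κ : ℝ} (h : Two f B B2 κ A) (hc : Conv c)
    (hc' : Conv c') (hc0 : c ≠ 0) (hc0' : c' ≠ 0) (ε ε' : ℤˣ) {S : Finset ℕ} (h3 : 3 ≤ S.card)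
    (h2 : ∀ a ∈ S, 2 ≤ a) (e : c * rescale ((ε : ℤ) : ℂ) f = c' * Gs ε' S) : False := by
  have hD : S.card ≤ S.card + 3 := by omega
  have hS := Bp_pos h2
  have hpp := pp_ne ε' h3 h2 hD
  rcases lt_trichotomy (Bp S) B with hlt | heq | hlt
  · -- the Seifert side is negligible
    have hw := gauge_gau 0 h.B_pos
    have g0 : Asy (gau 0 B) (Gs ε' S) 0 0 := by
      rcases gs_asy ε' h3 h2 hD with ⟨-, g⟩ | ⟨-, g⟩
      · exact aux.1 _ _ _ _ _ _ _ hS hlt g
      · exact aux.1 _ _ _ _ _ _ _ hS hlt g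
    have g1 := mulc hw (conv_asy aux hc' h.B_pos 0) g0
    rw [← e, mul_zero] at g1
    rcases h.resc aux ε with ⟨-, g2⟩ | ⟨-, g2⟩
    · have g3 := mulc hw (conv_asy aux hc h.B_pos 0) g2
      rcases mul_eq_zero.1 (uniq2 hw g1 g3).2.symm with g4 | g4
      · exact hc0 g4
      · exact h.A_ne g4
    · have g3 := mulc hw (conv_asy aux hc h.B_pos 0) g2
      rcases mul_eq_zero.1 (uniq2 hw g1 g3).1.symm with g4 | g4
      · exact hc0 g4
      · exact resc_ne aux h.A_ne g4
  · -- the same growth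
    subst heq
    have hw := gauge_gau S.card h.B_pos
    have hX : (X : PowerSeries ℂ) ^ S.card ≠ 0 := pow_ne_zero _ X_ne_zero
    have hC : PowerSeries.C ((-1 : ℂ) ^ S.card) ≠ 0 := by
      intro h0
      have := congrArg constantCoeff h0
      rw [constantCoeff_C, map_zero] at this
      exact pow_ne_zero _ (by norm_num) this
    have hXc : Conv ((X : PowerSeries ℂ) ^ S.card) := by
      refine conv_poly (D := S.card) fun l hl => ?_
      rw [coeff_X_pow, if_neg (by omega)]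
    have hCc : Conv (PowerSeries.C ((-1 : ℂ) ^ S.card)) := by
      refine conv_poly (D := 0) fun l hl => ?_
      rw [coeff_C, if_neg (by omega)]
    have hppc : Conv (pp ε' S S.card) := conv_poly (D := S.card) fun l hl => coeff_pp_zero hl
    have cA := conv_asy aux hc h.B_pos S.card
    have cA' := conv_asy aux hc' h.B_pos S.card
    rcases h.resc aux ε with ⟨-, g2⟩ | ⟨-, g2⟩
    · have g3 := mulc hw cA (aux.2.2.2.2 _ S.card _ _ _ h.B_pos g2)
      rcases gs_asy ε' h3 h2 hD with ⟨-, g⟩ | ⟨-, g⟩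
      · have g4 := mulc hw cA' g
        rw [← e] at g4
        have g5 := (uniq2 hw g3 g4).2
        refine no_conv aux h (g := c * (PowerSeries.C ((-1 : ℂ) ^ S.card) * X ^ S.card))
          (hc.mul (hCc.mul hXc)) (hc'.mul hppc) (mul_ne_zero hc0 (mul_ne_zero hC hX)) ?_
        rw [← g5]
        ring
      · have g4 := mulc hw cA' g
        rw [← e] at g4
        have g5 := (uniq2 hw g3 g4).2
        rw [mul_zero] at g5
        exact mul_ne_zero hc0 (mul_ne_zero (mul_ne_zero hC hX) h.A_ne) g5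
    · have g3 := mulc hw cA (aux.2.2.2.2 _ S.card _ _ _ h.B_pos g2)
      rcases gs_asy ε' h3 h2 hD with ⟨-, g⟩ | ⟨-, g⟩
      · have g4 := mulc hw cA' g
        rw [← e] at g4
        have g5 := (uniq2 hw g3 g4).1
        rw [mul_zero] at g5
        exact mul_ne_zero hc0 (mul_ne_zero hX (resc_ne aux h.A_ne)) g5
      · have g4 := mulc hw cA' g
        rw [← e] at g4
        have g5 := congrArg (rescale (-1 : ℂ)) (uniq2 hw g3 g4).1
        have hr : ∀ g : PowerSeries ℂ, rescale (-1 : ℂ) (rescale (-1 : ℂ) g) = g := by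
          intro g
          rw [rescale_rescale]
          norm_num
        have hcv : ∀ g : PowerSeries ℂ, Conv g → Conv (rescale (-1 : ℂ) g) := by
          intro g hg
          have := hg.rescale_unit (-1)
          simpa using this
        refine no_conv aux h (g := rescale (-1 : ℂ) (c * X ^ S.card)) (hcv _ (hc.mul hXc))
          (hcv _ (hc'.mul hppc)) (resc_ne aux (mul_ne_zero hc0 hX)) ?_
        rw [← g5, ← mul_assoc, map_mul (rescale (-1 : ℂ)) (c * X ^ S.card), hr]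
  · -- the splice is negligible
    have hw := gauge_gau S.card hS
    have g0 : Asy (gau S.card (Bp S)) (rescale ((ε : ℤ) : ℂ) f) 0 0 := by
      rcases h.resc aux ε with ⟨-, g⟩ | ⟨-, g⟩
      · exact aux.1 _ _ _ _ _ _ _ h.B_pos hlt g
      · exact aux.1 _ _ _ _ _ _ _ h.B_pos hlt g
    have g1 := mulc hw (conv_asy aux hc hS S.card) g0
    rw [e, mul_zero] at g1
    rcases gs_asy ε' h3 h2 hD with ⟨-, g2⟩ | ⟨-, g2⟩
    · have g3 := mulc hw (conv_asy aux hc' hS S.card) g2
      exact mul_ne_zero hc0' hpp (uniq2 hw g1 g3).2.symm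
    · have g3 := mulc hw (conv_asy aux hc' hS S.card) g2
      exact mul_ne_zero hc0' hpp (uniq2 hw g1 g3).1.symm

end Pool.Agent.K3h76.SB
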