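import Pool.Agent.K3h76.SB.Ident
import Pool.Agent.K3h76.SB.Seif

set_option autoImplicit false

/-! # Splices of two Brieskorn spheres and their Ohtsuki series -/

namespace Pool.Agent.K3h76.SB

open Finset PowerSeries Pool.Agent.K3h96.OS

/-- The Brieskorn sphere `Σ(a₁, a₂, w)`, oriented as the link of a singularity, with its singular
fibre of order `w`: the set `{a₁, a₂}` and the number `w` (`w = 1` is allowed; then the Brieskorn
sphere is the 3-sphere and the fibre is the torus knot of type `(a₁, a₂)`). -/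
@[ext] structure Piece where
  /-- the orders of the two other singular fibres -/
  orders : Finset ℕ
  /-- the order of the distinguished fibre -/
  weight : ℕ
  card_orders : orders.card = 2
  two_le : ∀ a ∈ orders, 2 ≤ a
  coprime : ∀ a ∈ orders, ∀ b ∈ orders, a ≠ b → a.Coprime b
  weight_pos : 1 ≤ weight
  coprime_weight : ∀ a ∈ orders, a.Coprime weight

/-- The splice of `Σ(a₁, a₂, α)` and `Σ(b₁, b₂, β)` along the fibres of orders `α` and `β`, where
`α β > a₁ a₂ b₁ b₂`, with one of its two orientations. These are the integral homology spheres which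
are links of complex surface singularities whose splice diagram has two nodes and four leaves. -/
@[ext] structure SplicedSphere where
  /-- the first Brieskorn sphere -/
  left : Piece
  /-- the second Brieskorn sphere -/
  right : Piece
  /-- `1` for the orientation as a link of a singularity, `-1` for the opposite one -/
  orientation : ℤˣ
  /-- the edge determinant is positive -/
  positive : (∏ a ∈ left.orders, a) * (∏ b ∈ right.orders, b) < left.weight * right.weight

/-- the same splice, with the two Brieskorn spheres exchanged -/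
def SplicedSphere.swap (M : SplicedSphere) : SplicedSphere where
  left := M.right
  right := M.left
  orientation := M.orientation
  positive := by rw [mul_comm, mul_comm M.right.weight]; exact M.positive

/-- the power series `F` with `sinh (y / a₁) sinh (y / a₂) / sinh y = y F(y ^ 2)` -/
noncomputable def Piece.kernel (P : Piece) : PowerSeries ℚ :=
  (∏ a ∈ P.orders, sinhSeries (1 / (a : ℚ))) * (sinhSeries 1)⁻¹

/-- The formal Gaussian integral `⟨x F_a(x ^ 2) y F_b(y ^ 2)⟩`, divided by `h / 2`, for the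
covariances `⟨x ^ 2⟩ = a₁ a₂ α h / 2`, `⟨x y⟩ = a₁ a₂ b₁ b₂ h / 2`, `⟨y ^ 2⟩ = b₁ b₂ β h / 2`. -/
noncomputable def SplicedSphere.gaussSeries (M : SplicedSphere) : PowerSeries ℚ :=
  PowerSeries.mk fun k => 2 * ∑ x ∈ antidiagonal k,
    coeff x.1 M.left.kernel * coeff x.2 M.right.kernel *
      moment ((∏ a ∈ M.left.orders, (a : ℚ)) * M.left.weight / 2)
        ((∏ a ∈ M.left.orders, (a : ℚ)) * (∏ b ∈ M.right.orders, (b : ℚ)) / 2)
        ((∏ b ∈ M.right.orders, (b : ℚ)) * M.right.weight / 2) (2 * x.1 + 1) (2 * x.2 + 1)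

/-- The Ohtsuki series of `M` in the variable `h = log q`; `φ` is the number in the factor
`q ^ (-φ / 4)`. The series of the manifold with the opposite orientation is obtained by replacing
`h` by `-h`. -/
noncomputable def SplicedSphere.ohtsuki (φ : ℂ) (M : SplicedSphere) : PowerSeries ℂ :=
  rescale ((M.orientation : ℤ) : ℂ) (rescale (-φ / 4) (PowerSeries.exp ℂ) * quantumTwo⁻¹ *
    M.gaussSeries.map (algebraMap ℚ ℂ))

theorem moment_symm (c11 c12 c22 : ℚ) (i j : ℕ) :
    moment c11 c12 c22 i j = moment c22 c12 c11 j i := by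
  unfold moment
  rw [min_comm]
  refine sum_congr rfl fun l _ => ?_
  have : i.choose l * j.choose l * l.factorial = j.choose l * i.choose l * l.factorial := by ring
  rw [this]
  ring

theorem gauss_swap (M : SplicedSphere) : M.swap.gaussSeries = M.gaussSeries := by
  ext k
  unfold SplicedSphere.gaussSeries
  rw [coeff_mk, coeff_mk]
  congr 1
  refine sum_nbij' Prod.swap Prod.swap ?_ ?_ ?_ ?_ ?_
  · intro x hx
    rw [HasAntidiagonal.mem_antidiagonal] at hx ⊢
    show x.2 + x.1 = k
    omega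
  · intro x hx
    rw [HasAntidiagonal.mem_antidiagonal] at hx ⊢
    show x.2 + x.1 = k
    omega
  · intro x _
    rfl
  · intro x _
    rfl
  intro x _
  show coeff x.1 M.right.kernel * coeff x.2 M.left.kernel *
    moment ((∏ b ∈ M.right.orders, (b : ℚ)) * M.right.weight / 2)
      ((∏ b ∈ M.right.orders, (b : ℚ)) * (∏ a ∈ M.left.orders, (a : ℚ)) / 2)
      ((∏ a ∈ M.left.orders, (a : ℚ)) * M.left.weight / 2) (2 * x.1 + 1) (2 * x.2 + 1) =
    coeff x.2 M.left.kernel * coeff x.1 M.right.kernel * moment _ _ _ (2 * x.2 + 1) (2 * x.1 + 1)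
  rw [moment_symm, mul_comm (∏ b ∈ M.right.orders, (b : ℚ)) (∏ a ∈ M.left.orders, (a : ℚ)),
    mul_comm (coeff x.1 M.right.kernel)]

/-- `M` is described by `D` -/
def Rep (M : SplicedSphere) (D : Dat) : Prop :=
  M.left.orders = {D.a1, D.a2} ∧ M.left.weight = D.al ∧ M.right.orders = {D.b1, D.b2} ∧
    M.right.weight = D.be

theorem Piece.pair (P : Piece) : ∃ a b : ℕ, 2 ≤ a ∧ a < b ∧ a.Coprime b ∧ P.orders = {a, b} := by
  obtain ⟨a, b, hab, h⟩ := card_eq_two.1 P.card_orders
  have ha : a ∈ P.orders := by rw [h]; simp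
  have hb : b ∈ P.orders := by rw [h]; simp
  rcases lt_or_gt_of_ne hab with h1 | h1
  · exact ⟨a, b, P.two_le a ha, h1, P.coprime a ha b hb hab, h⟩
  · exact ⟨b, a, P.two_le b hb, h1, P.coprime b hb a ha hab.symm, by rw [h, pair_comm]⟩

theorem exists_rep (M : SplicedSphere) : ∃ D : Dat, Rep M D ∨ Rep M.swap D := by
  obtain ⟨a1, a2, ha, ha', hac, e1⟩ := M.left.pair
  obtain ⟨b1, b2, hb, hb', hbc, e2⟩ := M.right.pair
  have hp := M.positive
  rw [e1, e2, prod_pair ha'.ne, prod_pair hb'.ne] at hp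
  rcases le_total (b1 * b2 * M.right.weight) (a1 * a2 * M.left.weight) with h | h
  · exact ⟨⟨a1, a2, M.left.weight, b1, b2, M.right.weight, ha, ha', hac, hb, hb', hbc,
      M.left.weight_pos, M.right.weight_pos, hp, h⟩, Or.inl ⟨e1, rfl, e2, rfl⟩⟩
  · refine ⟨⟨b1, b2, M.right.weight, a1, a2, M.left.weight, hb, hb', hbc, ha, ha', hac,
      M.right.weight_pos, M.left.weight_pos, ?_, h⟩, Or.inr ⟨e2, rfl, e1, rfl⟩⟩
    rw [mul_comm, mul_comm M.right.weight]
    exact hp

theorem rep_gauss {M : SplicedSphere} {D : Dat} (h : Rep M D) :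
    M.gaussSeries = ser2 D.a1 D.a2 D.al D.b1 D.b2 D.be := by
  obtain ⟨e1, e2, e3, e4⟩ := h
  have k1 : M.left.kernel = kern D.a1 D.a2 := by
    unfold Piece.kernel kern
    rw [e1, prod_pair D.ha'.ne]
  have k2 : M.right.kernel = kern D.b1 D.b2 := by
    unfold Piece.kernel kern
    rw [e3, prod_pair D.hb'.ne]
  ext k
  unfold SplicedSphere.gaussSeries ser2
  rw [coeff_mk, coeff_mk, k1, k2, e1, e2, e3, e4, prod_pair D.ha'.ne, prod_pair D.hb'.ne]
  push_cast
  rfl

theorem rep_U {M : SplicedSphere} {D : Dat} (h : Rep M D ∨ Rep M.swap D) :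
    M.gaussSeries.map (algebraMap ℚ ℂ) = D.U := by
  unfold Dat.U
  rcases h with h | h
  · rw [rep_gauss h]
  · rw [← gauss_swap, rep_gauss h]

theorem ohtsuki_split (φ : ℂ) (M : SplicedSphere) {D : Dat} (h : Rep M D ∨ Rep M.swap D) :
    M.ohtsuki φ = pref φ M.orientation * rescale ((M.orientation : ℤ) : ℂ) D.U := by
  rw [SplicedSphere.ohtsuki, pref, ← rep_U h, ← map_mul]

theorem pref_conv (φ : ℂ) (ε : ℤˣ) : Conv (pref φ ε) :=
  ((Conv.exp _).mul (Conv.quantumTwo.inv (by rw [quantumTwo_zero]; exact one_ne_zero))).rescale_unit ε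

theorem ext_of {M M' : SplicedSphere} (h1 : M.left.orders = M'.left.orders)
    (h2 : M.left.weight = M'.left.weight) (h3 : M.right.orders = M'.right.orders)
    (h4 : M.right.weight = M'.right.weight) (h5 : M.orientation = M'.orientation) : M = M' :=
  SplicedSphere.ext (Piece.ext h1 h2) (Piece.ext h3 h4) h5

theorem swap_swap (M : SplicedSphere) : M.swap.swap = M := rfl

/-- all statements which are used -/
structure Bricks : Prop where
  aux : S_AUX
  half : S_HALF
  second : S_SECOND
  ker : S_KER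
  split : S_SPLIT
  funn : S_FUN
  ex : S_EXP
  sinm : S_SINM
  ss : S_IDSS
  es : S_IDES'
  ee : S_IDEE'

theorem main1 (br : Bricks) {c c' : PowerSeries ℂ} (hc : Conv c) (hc' : Conv c') (hc0 : c ≠ 0)
    (hc0' : c' ≠ 0) (φ φ' : ℂ) (M M' : SplicedSphere)
    (e : c * M.ohtsuki φ = c' * M'.ohtsuki φ') : M' = M ∨ M' = M.swap := by
  obtain ⟨D, hD⟩ := exists_rep M
  obtain ⟨D', hD'⟩ := exists_rep M'
  rw [ohtsuki_split φ M hD, ohtsuki_split φ' M' hD', ← mul_assoc, ← mul_assoc] at e
  have t := two br.aux br.half br.second br.ker br.split D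
  have t' := two br.aux br.half br.second br.ker br.split D'
  obtain ⟨h1, h2, h3, -, h5⟩ := cmp br.aux t t' (hc.mul (pref_conv _ _)) (hc'.mul (pref_conv _ _))
    (mul_ne_zero hc0 (pref_ne _ _)) (mul_ne_zero hc0' (pref_ne _ _)) _ _ e
  have key := ident br.funn br.ex br.sinm br.ss br.es br.ee h2 h3 h5
  have hs : M.swap.orientation = M.orientation := rfl
  have hs' : M'.swap.orientation = M'.orientation := rfl
  rcases key with ⟨k1, k2, k3, k4, k5, k6⟩ | ⟨k1, k2, k3, k4, k5, k6⟩ <;>
  rcases hD with ⟨m1, m2, m3, m4⟩ | ⟨m1, m2, m3, m4⟩ <;>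
  rcases hD' with ⟨n1, n2, n3, n4⟩ | ⟨n1, n2, n3, n4⟩
  · left
    exact ext_of (by rw [n1, m1, k1, k2]) (by rw [n2, m2, k3]) (by rw [n3, m3, k4, k5])
      (by rw [n4, m4, k6]) h1.symm
  · right
    have : M'.swap = M := ext_of (by rw [n1, m1, k1, k2]) (by rw [n2, m2, k3])
      (by rw [n3, m3, k4, k5]) (by rw [n4, m4, k6]) (by rw [hs', h1])
    rw [← this, swap_swap]
  · right
    exact ext_of (by rw [n1, m1, k1, k2]) (by rw [n2, m2, k3]) (by rw [n3, m3, k4, k5])
      (by rw [n4, m4, k6]) (by rw [hs, h1])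
  · left
    have : M'.swap = M.swap := ext_of (by rw [n1, m1, k1, k2]) (by rw [n2, m2, k3])
      (by rw [n3, m3, k4, k5]) (by rw [n4, m4, k6]) (by rw [hs, hs', h1])
    rw [← swap_swap M', this, swap_swap]
  · right
    exact ext_of (by rw [n1, k1, k2]; exact m3.symm) (by rw [n2, k3]; exact m4.symm)
      (by rw [n3, k4, k5]; exact m1.symm) (by rw [n4, k6]; exact m2.symm) (by rw [hs, h1])
  · left
    have : M'.swap = M.swap := ext_of (by rw [n1, k1, k2]; exact m3.symm)
      (by rw [n2, k3]; exact m4.symm)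
      (by rw [n3, k4, k5]; exact m1.symm) (by rw [n4, k6]; exact m2.symm) (by rw [hs, hs', h1])
    rw [← swap_swap M', this, swap_swap]
  · left
    exact ext_of (by rw [n1, k1, k2]; exact m3.symm) (by rw [n2, k3]; exact m4.symm)
      (by rw [n3, k4, k5]; exact m1.symm) (by rw [n4, k6]; exact m2.symm) h1.symm
  · right
    have : M'.swap = M := ext_of (by rw [n1, k1, k2]; exact m3.symm)
      (by rw [n2, k3]; exact m4.symm)
      (by rw [n3, k4, k5]; exact m1.symm) (by rw [n4, k6]; exact m2.symm) (by rw [hs', h1])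
    rw [← this, swap_swap]

theorem main2 (br : Bricks) {c c' : PowerSeries ℂ} (hc : Conv c) (hc' : Conv c') (hc0 : c ≠ 0)
    (hc0' : c' ≠ 0) (φ φ' : ℂ) (M : SplicedSphere) (N : SeifertSphere) :
    c * M.ohtsuki φ ≠ c' * Pool.Agent.K3h96.OS.ohtsuki φ' N := by
  intro e
  obtain ⟨D, hD⟩ := exists_rep M
  rw [ohtsuki_split φ M hD, ohtsuki_eq, ← mul_assoc, ← mul_assoc] at e
  exact seif br.aux (two br.aux br.half br.second br.ker br.split D) (hc.mul (pref_conv _ _))
    (hc'.mul (pref_conv _ _)) (mul_ne_zero hc0 (pref_ne _ _)) (mul_ne_zero hc0' (pref_ne _ _))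
    _ _ N.three_le N.two_le e

end Pool.Agent.K3h76.SB
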